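import Mathlib

set_option autoImplicit false
set_option linter.all false

open MeasureTheory Set Filter Topology ProbabilityTheory
open scoped ENNReal

namespace Pool.Agent.H.MP_a6e06b_lc

section Support

variable {W : Type*} [MetricSpace W]

/-- Nested closed sets indexed by lists of indices (newest index first). -/
def cell (d : ℕ → W) : List ℕ → Set W
  | [] => Set.univ
  | (i :: l) => cell d l ∩ Metric.closedBall (d i) ((1 / 2 : ℝ) ^ l.length)

theorem isClosed_cell (d : ℕ → W) (l : List ℕ) : IsClosed (cell d l) := by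
  induction l with
  | nil => exact isClosed_univ
  | cons i l ih => exact ih.inter Metric.isClosed_closedBall

variable [MeasurableSpace W] [BorelSpace W]

/-- The least index giving positive measure. -/
noncomputable def pick (d : ℕ → W) (l : List ℕ) (ν : Measure W) : ℕ :=
  sInf {i | ν (cell d (i :: l)) ≠ 0}

/-- The sequence of chosen indices. -/
noncomputable def path (d : ℕ → W) : ℕ → Measure W → List ℕ
  | 0, _ => []
  | (k + 1), ν => pick d (path d k ν) ν :: path d k ν

theorem length_path (d : ℕ → W) (k : ℕ) (ν : Measure W) : (path d k ν).length = k := by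
  induction k with
  | zero => rfl
  | succ k ih => simp [path, ih]

theorem measurableSet_pick (d : ℕ → W) (l : List ℕ) (i : ℕ) :
    MeasurableSet {ν : Measure W | pick d l ν = i} := by
  have hm : ∀ j, MeasurableSet {ν : Measure W | ν (cell d (j :: l)) ≠ 0} := fun j =>
    ((Measure.measurable_coe (isClosed_cell d (j :: l)).measurableSet)
      (measurableSet_singleton (0 : ℝ≥0∞))).compl
  have key : {ν : Measure W | pick d l ν = i} =
      ({ν : Measure W | ν (cell d (i :: l)) ≠ 0} ∩ ⋂ j, ⋂ (_ : j < i),
        {ν : Measure W | ν (cell d (j :: l)) ≠ 0}ᶜ) ∪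
      (if i = 0 then ⋂ j, {ν : Measure W | ν (cell d (j :: l)) ≠ 0}ᶜ else ∅) := by
    ext ν
    simp only [mem_ofPred_eq, mem_union, mem_inter_iff, mem_iInter, mem_compl_iff]
    constructor
    · intro h
      by_cases hne : {i | ν (cell d (i :: l)) ≠ 0}.Nonempty
      · left
        have h1 := Nat.sInf_mem hne
        rw [pick] at h
        rw [h] at h1
        refine ⟨h1, fun j hj hcon => ?_⟩
        have := Nat.sInf_le (s := {i | ν (cell d (i :: l)) ≠ 0}) hcon
        omega
      · right
        rw [Set.not_nonempty_iff_eq_empty] at hne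
        rw [pick, hne, Nat.sInf_empty] at h
        subst h
        simp only [if_true, mem_iInter, mem_compl_iff]
        intro j hj
        have : j ∈ {i | ν (cell d (i :: l)) ≠ 0} := hj
        rw [hne] at this
        exact this
    · rintro (⟨h1, h2⟩ | h)
      · apply le_antisymm
        · exact Nat.sInf_le h1
        · by_contra hlt
          push Not at hlt
          exact h2 _ hlt (Nat.sInf_mem (s := {i | ν (cell d (i :: l)) ≠ 0}) ⟨i, h1⟩)
      · split_ifs at h with h0
        · subst h0
          simp only [mem_iInter, mem_compl_iff] at h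
          rw [pick]
          have : {i | ν (cell d (i :: l)) ≠ 0} = ∅ := by
            ext j
            simp only [mem_empty_iff_false, iff_false]
            exact h j
          rw [this, Nat.sInf_empty]
        · exact absurd h (notMem_empty _)
  rw [key]
  refine MeasurableSet.union (MeasurableSet.inter (hm i) ?_) ?_
  · exact MeasurableSet.iInter fun j => MeasurableSet.iInter fun _ => (hm j).compl
  · split_ifs
    · exact MeasurableSet.iInter fun j => (hm j).compl
    · exact MeasurableSet.empty

theorem measurableSet_path (d : ℕ → W) (k : ℕ) (l : List ℕ) :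
    MeasurableSet {ν : Measure W | path d k ν = l} := by
  induction k generalizing l with
  | zero =>
    by_cases h : [] = l
    · simp [path, h]
    · simp [path, h]
  | succ k ih =>
    cases l with
    | nil => simp [path]
    | cons i l =>
      have : {ν : Measure W | path d (k + 1) ν = i :: l} =
          {ν : Measure W | pick d l ν = i} ∩ {ν : Measure W | path d k ν = l} := by
        ext ν
        simp only [path, mem_ofPred_eq, List.cons.injEq, mem_inter_iff]
        constructor
        · rintro ⟨h1, h2⟩
          rw [h2] at h1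
          exact ⟨h1, h2⟩
        · rintro ⟨h1, h2⟩
          rw [h2]
          exact ⟨h1, rfl⟩
      rw [this]
      exact (measurableSet_pick d l i).inter (ih l)

theorem measurable_pick_path (d : ℕ → W) (k : ℕ) :
    Measurable (fun ν : Measure W => pick d (path d k ν) ν) := by
  refine measurable_to_countable' fun i => ?_
  have : (fun ν : Measure W => pick d (path d k ν) ν) ⁻¹' {i} =
      ⋃ l : List ℕ, {ν : Measure W | path d k ν = l} ∩ {ν : Measure W | pick d l ν = i} := by
    ext ν
    simp
  rw [this]
  exact MeasurableSet.iUnion fun l => (measurableSet_path d k l).inter (measurableSet_pick d l i)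

theorem pick_spec {d : ℕ → W} (hd : DenseRange d) {l : List ℕ} {ν : Measure W}
    (h : ν (cell d l) ≠ 0) : ν (cell d (pick d l ν :: l)) ≠ 0 := by
  have hcov : cell d l ⊆ ⋃ i, cell d (i :: l) := by
    intro x hx
    obtain ⟨i, hi⟩ := hd.exists_dist_lt x (ε := (1 / 2 : ℝ) ^ l.length) (by positivity)
    exact mem_iUnion.2 ⟨i, hx, hi.le⟩
  have : ∃ i, ν (cell d (i :: l)) ≠ 0 := by
    by_contra hcon
    push Not at hcon
    exact h (measure_mono_null hcov (measure_iUnion_null hcon))
  exact Nat.sInf_mem (s := {i | ν (cell d (i :: l)) ≠ 0}) this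

theorem cell_path_ne_zero {d : ℕ → W} (hd : DenseRange d) {ν : Measure W} (hν : ν ≠ 0) (k : ℕ) :
    ν (cell d (path d k ν)) ≠ 0 := by
  induction k with
  | zero => simpa [path, cell] using hν
  | succ k ih => exact pick_spec hd ih

/-- The sequence of approximating centers. -/
noncomputable def ptSeq (d : ℕ → W) (ν : Measure W) (k : ℕ) : W := d (pick d (path d k ν) ν)

theorem exists_near {d : ℕ → W} (hd : DenseRange d) {ν : Measure W} (hν : ν ≠ 0) {F : Set W}
    (hF : ν Fᶜ = 0) (k : ℕ) : ∃ x ∈ F, dist x (ptSeq d ν k) ≤ (1 / 2 : ℝ) ^ k ∧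
      dist x (ptSeq d ν (k + 1)) ≤ (1 / 2 : ℝ) ^ (k + 1) := by
  have h := cell_path_ne_zero hd hν (k + 2)
  have h2 : (cell d (path d (k + 2) ν) ∩ F).Nonempty := by
    by_contra hcon
    rw [Set.not_nonempty_iff_eq_empty] at hcon
    apply h
    refine measure_mono_null ?_ hF
    intro x hx hxF
    have : x ∈ cell d (path d (k + 2) ν) ∩ F := ⟨hx, hxF⟩
    rw [hcon] at this
    exact this
  obtain ⟨x, hx, hxF⟩ := h2
  refine ⟨x, hxF, ?_, ?_⟩
  · have := hx.1.2
    rw [length_path] at this
    exact this
  · have := hx.2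
    rw [length_path] at this
    exact this

theorem dist_ptSeq {d : ℕ → W} (hd : DenseRange d) (ν : Measure W) (k : ℕ) :
    dist (ptSeq d ν k) (ptSeq d ν (k + 1)) ≤ 2 * (1 / 2 : ℝ) ^ k := by
  by_cases hν : ν = 0
  · subst hν
    have : ∀ l : List ℕ, pick d l (0 : Measure W) = 0 := by
      intro l
      simp [pick]
    simp only [ptSeq, this, dist_self]
    positivity
  · obtain ⟨x, -, h1, h2⟩ := exists_near hd hν (F := univ) (by simp) k
    have h3 := dist_triangle_left (ptSeq d ν k) (ptSeq d ν (k + 1)) x
    have h4 : (1 / 2 : ℝ) ^ (k + 1) ≤ (1 / 2 : ℝ) ^ k := by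
      rw [pow_succ]
      have : (0 : ℝ) < (1 / 2 : ℝ) ^ k := by positivity
      linarith
    linarith

theorem exists_support_point_aux [CompleteSpace W] {d : ℕ → W} (hd : DenseRange d) :
    ∃ s : Measure W → W, Measurable s ∧
      ∀ ν : Measure W, ν ≠ 0 → ∀ F : Set W, IsClosed F → ν Fᶜ = 0 → s ν ∈ F := by
  have hconv : ∀ ν : Measure W, ∃ x, Tendsto (fun k => ptSeq d ν k) atTop (𝓝 x) := by
    intro ν
    apply cauchySeq_tendsto_of_complete
    exact cauchySeq_of_le_geometric (1 / 2) 2 (by norm_num) (dist_ptSeq hd ν)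
  choose s hs using hconv
  refine ⟨s, ?_, ?_⟩
  · refine measurable_of_tendsto_metrizable (f := fun k ν => ptSeq d ν k) (fun k => ?_)
      (tendsto_pi_nhds.2 hs)
    exact (measurable_from_top (f := d)).comp (measurable_pick_path d k)
  · intro ν hν F hF hνF
    choose x hxF hx _ using fun k => exists_near hd hν hνF k
    refine hF.mem_of_tendsto (f := x) (b := atTop) ?_ (Eventually.of_forall hxF)
    refine (tendsto_iff_of_dist ?_).2 (hs ν)
    refine squeeze_zero (fun _ => dist_nonneg) hx ?_
    exact tendsto_pow_atTop_nhds_zero_of_lt_one (by norm_num) (by norm_num)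

end Support

/-- On a nonempty Polish space there is a measurable choice of a point in the support of a
nonzero measure. -/
theorem exists_support_point (W : Type*) [TopologicalSpace W] [PolishSpace W]
    [MeasurableSpace W] [BorelSpace W] [Nonempty W] :
    ∃ s : Measure W → W, Measurable s ∧
      ∀ ν : Measure W, ν ≠ 0 → ∀ F : Set W, IsClosed F → ν Fᶜ = 0 → s ν ∈ F := by
  letI := TopologicalSpace.upgradeIsCompletelyMetrizable W
  exact exists_support_point_aux (TopologicalSpace.denseRange_denseSeq W)

/-- As `exists_support_point`, but the selected point also lies in a prescribed Borel set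
whenever that set has full measure. -/
theorem exists_support_point' (W : Type*) [τ : TopologicalSpace W] [hτ : PolishSpace W]
    [MeasurableSpace W] [hb : BorelSpace W] [Nonempty W] {P : Set W} (hP : MeasurableSet P) :
    ∃ s : Measure W → W, Measurable s ∧
      ∀ ν : Measure W, ν ≠ 0 → (∀ F : Set W, IsClosed F → ν Fᶜ = 0 → s ν ∈ F) ∧
        (ν Pᶜ = 0 → s ν ∈ P) := by
  obtain ⟨t, ht_le, ht_polish, ht_closed, -⟩ := hP.isClopenable
  have hborel : @borel W t = @borel W τ := borel_eq_borel_of_le ht_polish hτ ht_le
  have hb' : @BorelSpace W t inferInstance := by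
    refine @BorelSpace.mk W t _ ?_
    rw [hborel]
    exact hb.measurable_eq
  obtain ⟨G, hG, hG2⟩ := @exists_support_point W t ht_polish inferInstance hb' inferInstance
  refine ⟨G, hG, fun ν hν => ⟨fun F hF hνF => ?_, fun h => hG2 ν hν P ht_closed h⟩⟩
  exact hG2 ν hν F (hF.mono ht_le) hνF

theorem exists_selector {Z Y : Type*} [MeasurableSpace Z] [StandardBorelSpace Z]
    [MeasurableSpace Y] [StandardBorelSpace Y] [Nonempty Z] [Nonempty Y]
    {P : Set (Z × Y)} (hP : MeasurableSet P) :
    ∃ G : Measure (Z × Y) → Z × Y, Measurable G ∧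
      ∀ (z : Z) (ν : Measure Y), ν ≠ 0 → (∀ᵐ y ∂ν, (z, y) ∈ P) →
        (G (ν.map (Prod.mk z))).1 = z ∧ G (ν.map (Prod.mk z)) ∈ P := by
  letI := upgradeStandardBorel Z
  letI := upgradeStandardBorel Y
  obtain ⟨G, hG, hG2⟩ := exists_support_point' (Z × Y) hP
  refine ⟨G, hG, ?_⟩
  intro z ν hν hae
  have hmk : Measurable (Prod.mk z : Y → Z × Y) := measurable_prodMk_left
  have hne : ν.map (Prod.mk z) ≠ 0 := by
    intro h
    rw [Measure.map_eq_zero_iff hmk.aemeasurable] at h
    exact hν h
  obtain ⟨h1, h2⟩ := hG2 _ hne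
  constructor
  · have hcl : IsClosed ({p : Z × Y | p.1 = z}) := isClosed_eq continuous_fst continuous_const
    refine h1 _ hcl ?_
    rw [Measure.map_apply hmk hcl.measurableSet.compl]
    convert measure_empty (μ := ν)
    ext y
    simp
  · refine h2 ?_
    rw [Measure.map_apply hmk hP.compl]
    exact hae

/-- Measurable selection from sets of full measure for an s-finite kernel; the selected point
only depends on the parameter and the measure. -/
theorem exists_selection {A Z Y : Type*} [MeasurableSpace A] [MeasurableSpace Z]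
    [StandardBorelSpace Z]
    [MeasurableSpace Y] [StandardBorelSpace Y] [Nonempty Z] [Nonempty Y]
    {P : Set (Z × Y)} (hP : MeasurableSet P) {φ : A → Z} (hφ : Measurable φ)
    (κ : Kernel A Y) [IsSFiniteKernel κ] :
    ∃ f : A → Y, Measurable f ∧
      (∀ a, κ a ≠ 0 → (∀ᵐ y ∂κ a, (φ a, y) ∈ P) → (φ a, f a) ∈ P) ∧
      (∀ a b, φ a = φ b → κ a = κ b → f a = f b) := by
  obtain ⟨G, hG, hG2⟩ := exists_selector hP
  have hmeas : Measurable (fun a => (κ a).map (Prod.mk (φ a))) := by
    refine Measure.measurable_of_measurable_coe _ fun M hM => ?_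
    have : (fun a => (κ a).map (Prod.mk (φ a)) M) =
        fun a => κ a (Prod.mk a ⁻¹' {p : A × Y | (φ p.1, p.2) ∈ M}) := by
      ext a
      rw [Measure.map_apply measurable_prodMk_left hM]
      rfl
    rw [this]
    refine Kernel.measurable_kernel_prodMk_left ?_
    exact ((hφ.comp measurable_fst).prodMk measurable_snd) hM
  refine ⟨fun a => (G ((κ a).map (Prod.mk (φ a)))).2,
    measurable_snd.comp (hG.comp hmeas), ?_, ?_⟩
  · intro a ha hae
    obtain ⟨h1, h2⟩ := hG2 (φ a) (κ a) ha hae
    have : (φ a, (G ((κ a).map (Prod.mk (φ a)))).2) = G ((κ a).map (Prod.mk (φ a))) :=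
      Prod.ext h1.symm rfl
    rw [this]
    exact h2
  · intro a b h1 h2
    simp only [h1, h2]

end Pool.Agent.H.MP_a6e06b_lc
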