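import Mathlib
import Pool.Agent.H.MP_a6e06b_lc.Select

set_option autoImplicit false
set_option linter.all false

open MeasureTheory Set Filter Topology ProbabilityTheory
open scoped ENNReal

namespace Pool.Agent.H.MP_a6e06b_lc

/-- Measurability of the almost everywhere quantifier of an s-finite kernel. -/
theorem measurableSet_ae {A B : Type*} [MeasurableSpace A] [MeasurableSpace B] (κ : Kernel A B)
    [IsSFiniteKernel κ] {p : A → B → Prop} (hp : MeasurableSet {q : A × B | p q.1 q.2}) :
    MeasurableSet {a | ∀ᵐ b ∂κ a, p a b} := by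
  have : {a | ∀ᵐ b ∂κ a, p a b} =
      (fun a => κ a (Prod.mk a ⁻¹' {q : A × B | p q.1 q.2}ᶜ)) ⁻¹' {0} := by
    ext a
    rfl
  rw [this]
  exact (Kernel.measurable_kernel_prodMk_left hp.compl) (measurableSet_singleton 0)

/-- Variant with an explicit parametrisation of the kernel. -/
theorem measurableSet_ae' {A A' B : Type*} [MeasurableSpace A] [MeasurableSpace A']
    [MeasurableSpace B] (κ : Kernel A' B) [IsSFiniteKernel κ] {f : A → A'} (hf : Measurable f)
    {p : A → B → Prop} (hp : MeasurableSet {q : A × B | p q.1 q.2}) :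
    MeasurableSet {a | ∀ᵐ b ∂κ (f a), p a b} := by
  have := measurableSet_ae (κ.comap f hf) hp
  simpa [Kernel.comap_apply] using this

/-- Variant with a fixed measure. -/
theorem measurableSet_ae_const {A B : Type*} [MeasurableSpace A]
    [MeasurableSpace B] (m : Measure B) [IsFiniteMeasure m]
    {p : A → B → Prop} (hp : MeasurableSet {q : A × B | p q.1 q.2}) :
    MeasurableSet {a | ∀ᵐ b ∂m, p a b} := by
  have := measurableSet_ae (Kernel.const A m) hp
  simpa [Kernel.const_apply] using this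

section Density

variable {X : Type*} [MeasurableSpace X] [StandardBorelSpace X]

theorem exists_density (μ : Kernel X X) [IsMarkovKernel μ] :
    ∃ ρ : X × X → X → ℝ≥0∞, Measurable (Function.uncurry ρ) ∧
      ∀ x y, μ x ≪ μ y → (μ y).withDensity (ρ (x, y)) = μ x := by
  refine ⟨fun p z => Kernel.rnDeriv (μ.comap Prod.fst measurable_fst)
    (μ.comap Prod.snd measurable_snd) p z, Kernel.measurable_rnDeriv _ _, ?_⟩
  intro x y h
  have h1 : (fun z => Kernel.rnDeriv (μ.comap Prod.fst measurable_fst)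
      (μ.comap Prod.snd measurable_snd) (x, y) z) =ᵐ[μ y] (μ x).rnDeriv (μ y) := by
    have := Kernel.rnDeriv_eq_rnDeriv_measure (κ := μ.comap Prod.fst measurable_fst)
      (η := μ.comap Prod.snd measurable_snd) (a := (x, y))
    simpa [Kernel.comap_apply] using this
  rw [withDensity_congr_ae h1]
  exact Measure.withDensity_rnDeriv_eq _ _ h

theorem density_lt_top {m m' : Measure X} [IsProbabilityMeasure m] [IsProbabilityMeasure m']
    {f : X → ℝ≥0∞} (hf : Measurable f) (h : m'.withDensity f = m) : ∀ᵐ z ∂m', f z < ∞ := by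
  refine ae_lt_top hf ?_
  have : ∫⁻ z, f z ∂m' = m univ := by
    rw [← h, withDensity_apply _ MeasurableSet.univ, Measure.restrict_univ]
  rw [this]
  exact measure_ne_top _ _

theorem density_pos {m m' : Measure X} [IsProbabilityMeasure m] [IsProbabilityMeasure m']
    {f : X → ℝ≥0∞} (hf : Measurable f) (h : m'.withDensity f = m) (hac : m' ≪ m) :
    ∀ᵐ z ∂m', 0 < f z := by
  have hs : MeasurableSet {z | f z = 0} := hf (measurableSet_singleton 0)
  have h1 : m {z | f z = 0} = 0 := by
    rw [← h, withDensity_apply _ hs]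
    rw [setLIntegral_congr_fun hs (g := fun _ => 0) (fun z hz => hz)]
    simp
  have h2 := hac h1
  rw [ae_iff]
  convert h2 using 2
  ext z
  simp

theorem density_mul {m1 m2 m3 : Measure X} [IsProbabilityMeasure m1] [IsProbabilityMeasure m2]
    [IsProbabilityMeasure m3] {f12 f23 f13 : X → ℝ≥0∞} (hf12 : Measurable f12)
    (hf23 : Measurable f23) (hf13 : Measurable f13)
    (h12 : m2.withDensity f12 = m1) (h23 : m3.withDensity f23 = m2)
    (h13 : m3.withDensity f13 = m1) : ∀ᵐ z ∂m3, f13 z = f12 z * f23 z := by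
  have h1 : m3.withDensity f13 = m3.withDensity (f23 * f12) := by
    rw [withDensity_mul _ hf23 hf12, h23, h12, h13]
  rw [withDensity_eq_iff_of_sigmaFinite hf13.aemeasurable (hf23.mul hf12).aemeasurable] at h1
  filter_upwards [h1] with z hz
  rw [hz, Pi.mul_apply, mul_comm]

end Density

section Main

variable {X : Type*} [MeasurableSpace X] [StandardBorelSpace X]

/-- **Borel version of the existence of Haar systems**: a Borel assignment of equivalent
probability measures to the points of each class of a Borel equivalence relation yields a Borel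
assignment of sigma-finite measures which is constant on classes. -/
theorem exists_invariant_kernel {E : X → X → Prop} (hE : Equivalence E)
    (hEm : MeasurableSet {p : X × X | E p.1 p.2}) (μ : Kernel X X) [IsMarkovKernel μ]
    (hμE : ∀ x, ∀ᵐ y ∂μ x, E x y) (hac : ∀ x y, E x y → μ x ≪ μ y) :
    ∃ (Λ : Kernel X X) (_ : IsSFiniteKernel Λ) (k : X → X → ℝ≥0∞),
      Measurable (Function.uncurry k) ∧ (∀ x z, 0 < k x z) ∧ (∀ x z, k x z < ∞) ∧
      (∀ x, ∫⁻ z, k x z ∂Λ x = 1) ∧ (∀ x, ∀ᵐ z ∂Λ x, E x z) ∧ (∀ x y, E x y → Λ x = Λ y) := by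
  classical
  rcases isEmpty_or_nonempty X with hX | hX
  · refine ⟨μ, inferInstance, fun _ _ => 1, measurable_const, fun x => (IsEmpty.false x).elim,
      fun x => (IsEmpty.false x).elim, fun x => (IsEmpty.false x).elim, hμE,
      fun x => (IsEmpty.false x).elim⟩
  have hrefl : ∀ x, E x x := hE.refl
  have hsymm : ∀ {x y}, E x y → E y x := fun h => hE.symm h
  have htrans : ∀ {x y z}, E x y → E y z → E x z := fun h h' => hE.trans h h'
  obtain ⟨ρ, hρm, hρ⟩ := exists_density μ
  have hρm' : ∀ p, Measurable (ρ p) := fun p => hρm.comp measurable_prodMk_left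
  have hρE : ∀ x y, E x y → (μ y).withDensity (ρ (x, y)) = μ x := fun x y h => hρ x y (hac x y h)
  -- the basic property
  set p : X → X → X → X → Prop := fun z y x x' =>
    ρ (y, x) z = ρ (y, x') z * ρ (x', x) z ∧ (0 < ρ (y, x) z ∧ ρ (y, x) z < ∞) ∧
      (0 < ρ (y, x') z ∧ ρ (y, x') z < ∞) with hp
  have hpc : ∀ w y x x', E w y → E w x → E w x' → ∀ᵐ z ∂μ w, p z y x x' := by
    intro w y x x' hy hx hx'
    have hyx : E y x := htrans (hsymm hy) hx
    have hyx' : E y x' := htrans (hsymm hy) hx'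
    have hx'x : E x' x := htrans (hsymm hx') hx
    have h1 := density_mul (hρm' _) (hρm' _) (hρm' _) (hρE y x' hyx') (hρE x' x hx'x)
      (hρE y x hyx)
    have h2 := density_pos (hρm' _) (hρE y x hyx) (hac x y (hsymm hyx))
    have h3 := density_lt_top (hρm' _) (hρE y x hyx)
    have h4 := density_pos (hρm' _) (hρE y x' hyx') (hac x' y (hsymm hyx'))
    have h5 := density_lt_top (hρm' _) (hρE y x' hyx')
    have hwx := hac w x hx
    have hwx' := hac w x' hx'
    filter_upwards [hwx.ae_le h1, hwx.ae_le h2, hwx.ae_le h3, hwx'.ae_le h4, hwx'.ae_le h5]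
      with z a1 a2 a3 a4 a5
    exact ⟨a1, ⟨a2, a3⟩, ⟨a4, a5⟩⟩
  -- measurability in general form
  have hpm : ∀ {A : Type _} [MeasurableSpace A] (fz fy fx fx' : A → X), Measurable fz →
      Measurable fy → Measurable fx → Measurable fx' →
      MeasurableSet {a | p (fz a) (fy a) (fx a) (fx' a)} := by
    intro A _ fz fy fx fx' hz hy hx hx'
    have m1 : Measurable fun a => ρ (fy a, fx a) (fz a) :=
      hρm.comp ((hy.prodMk hx).prodMk hz)
    have m2 : Measurable fun a => ρ (fy a, fx' a) (fz a) :=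
      hρm.comp ((hy.prodMk hx').prodMk hz)
    have m3 : Measurable fun a => ρ (fx' a, fx a) (fz a) :=
      hρm.comp ((hx'.prodMk hx).prodMk hz)
    have s1 : MeasurableSet {a | ρ (fy a, fx a) (fz a) = ρ (fy a, fx' a) (fz a) *
        ρ (fx' a, fx a) (fz a)} := measurableSet_eq_fun m1 (m2.mul m3)
    have s2 : MeasurableSet {a | 0 < ρ (fy a, fx a) (fz a)} := measurableSet_lt measurable_const m1
    have s3 : MeasurableSet {a | ρ (fy a, fx a) (fz a) < ∞} := measurableSet_lt m1 measurable_const
    have s4 : MeasurableSet {a | 0 < ρ (fy a, fx' a) (fz a)} :=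
      measurableSet_lt measurable_const m2
    have s5 : MeasurableSet {a | ρ (fy a, fx' a) (fz a) < ∞} :=
      measurableSet_lt m2 measurable_const
    exact s1.inter ((s2.inter s3).inter (s4.inter s5))
  -- classwise Fubini
  have hfub : ∀ w, ∀ᵐ z ∂μ w, ∀ᵐ y ∂μ w, ∀ᵐ x ∂μ w, ∀ᵐ x' ∂μ w, p z y x x' := by
    intro w
    have a1 : ∀ y x, E w y → E w x → ∀ᵐ z ∂μ w, ∀ᵐ x' ∂μ w, p z y x x' := by
      intro y x hy hx
      refine (Measure.ae_ae_comm (p := fun x' z => p z y x x') ?_).1 ?_
      · exact hpm (fun a : X × X => a.2) (fun _ => y) (fun _ => x) (fun a => a.1)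
          measurable_snd measurable_const measurable_const measurable_fst
      · filter_upwards [hμE w] with x' hx'
        exact hpc w y x x' hy hx hx'
    have a2 : ∀ y, E w y → ∀ᵐ z ∂μ w, ∀ᵐ x ∂μ w, ∀ᵐ x' ∂μ w, p z y x x' := by
      intro y hy
      refine (Measure.ae_ae_comm (p := fun x z => ∀ᵐ x' ∂μ w, p z y x x') ?_).1 ?_
      · refine measurableSet_ae_const (A := X × X) (μ w) (p := fun a x' => p a.2 y a.1 x') ?_
        exact hpm (fun a : (X × X) × X => a.1.2) (fun _ => y) (fun a => a.1.1) (fun a => a.2)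
          (by fun_prop) (by fun_prop) (by fun_prop) (by fun_prop)
      · filter_upwards [hμE w] with x hx
        exact a1 y x hy hx
    refine (Measure.ae_ae_comm (p := fun y z => ∀ᵐ x ∂μ w, ∀ᵐ x' ∂μ w, p z y x x') ?_).1 ?_
    · refine measurableSet_ae_const (A := X × X) (μ w)
        (p := fun a x => ∀ᵐ x' ∂μ w, p a.2 a.1 x x') ?_
      refine measurableSet_ae_const (A := (X × X) × X) (μ w)
        (p := fun a x' => p a.1.2 a.1.1 a.2 x') ?_
      exact hpm (fun a : ((X × X) × X) × X => a.1.1.2) (fun a => a.1.1.1) (fun a => a.1.2)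
        (fun a => a.2) (by fun_prop) (by fun_prop) (by fun_prop) (by fun_prop)
    · filter_upwards [hμE w] with y hy
      exact a2 y hy
  -- the set of good pairs
  set P1 : Set (X × X) := {q | ∀ᵐ x ∂μ q.1, ∀ᵐ x' ∂μ q.1, p q.1 q.2 x x'} with hP1
  have hP1m : MeasurableSet P1 := by
    refine measurableSet_ae' (A := X × X) μ (f := Prod.fst) measurable_fst
      (p := fun q x => ∀ᵐ x' ∂μ q.1, p q.1 q.2 x x') ?_
    refine measurableSet_ae' (A := (X × X) × X) μ (f := fun a => a.1.1) (by fun_prop)
      (p := fun a x' => p a.1.1 a.1.2 a.2 x') ?_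
    exact hpm (fun a : ((X × X) × X) × X => a.1.1.1) (fun a => a.1.1.2) (fun a => a.1.2)
      (fun a => a.2) (by fun_prop) (by fun_prop) (by fun_prop) (by fun_prop)
  have hne : ∀ x, μ x ≠ 0 := fun x => IsProbabilityMeasure.ne_zero _
  obtain ⟨f, hf, hf1, -⟩ := exists_selection hP1m (φ := id) measurable_id μ
  have hfae : ∀ w, ∀ᵐ z ∂μ w, (z, f z) ∈ P1 := by
    intro w
    filter_upwards [hfub w, hμE w] with z hz hwz
    refine hf1 z (hne z) ?_
    have hzw : μ z ≪ μ w := hac z w (hsymm hwz)
    have h1 := hzw.ae_le hz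
    filter_upwards [h1] with y hy
    have h2 := hzw.ae_le hy
    filter_upwards [h2] with x hx
    exact hzw.ae_le hx
  -- the density with respect to the invariant measure
  set h0 : X → X → ℝ≥0∞ := fun x z => ρ (f z, x) z with hh0
  have hh0m : Measurable (Function.uncurry h0) :=
    hρm.comp (((hf.comp measurable_snd).prodMk measurable_fst).prodMk measurable_snd)
  set h : X → X → ℝ≥0∞ := fun x z => if 0 < h0 x z ∧ h0 x z < ∞ then h0 x z else 1 with hh
  have hhm : Measurable (Function.uncurry h) := by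
    refine Measurable.ite ?_ hh0m measurable_const
    exact (measurableSet_lt measurable_const hh0m).inter (measurableSet_lt hh0m measurable_const)
  have hhm' : ∀ x, Measurable (h x) := fun x => hhm.comp measurable_prodMk_left
  have hpos : ∀ x z, 0 < h x z := by
    intro x z
    simp only [hh]
    split_ifs with hc
    · exact hc.1
    · exact one_pos
  have hfin : ∀ x z, h x z < ∞ := by
    intro x z
    simp only [hh]
    split_ifs with hc
    · exact hc.2
    · exact ENNReal.one_lt_top
  have hkey : ∀ w, ∀ᵐ x ∂μ w, ∀ᵐ x' ∂μ w, ∀ᵐ z ∂μ w, h x z = h x' z * ρ (x', x) z := by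
    intro w
    have b1 : ∀ᵐ z ∂μ w, ∀ᵐ x ∂μ w, ∀ᵐ x' ∂μ w, h x z = h x' z * ρ (x', x) z := by
      filter_upwards [hfae w, hμE w] with z hz hwz
      have hwz' : μ w ≪ μ z := hac w z hwz
      have c1 : ∀ᵐ x ∂μ w, ∀ᵐ x' ∂μ z, p z (f z) x x' := hwz'.ae_le hz
      filter_upwards [c1] with x hx
      filter_upwards [hwz'.ae_le hx] with x' hx'
      obtain ⟨d1, d2, d3⟩ := hx'
      have e1 : h x z = ρ (f z, x) z := by
        simp only [hh, hh0]
        rw [if_pos d2]
      have e2 : h x' z = ρ (f z, x') z := by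
        simp only [hh, hh0]
        rw [if_pos d3]
      rw [e1, e2]
      exact d1
    have hm3 : MeasurableSet {a : (X × X) × X | h a.1.1 a.2 = h a.1.2 a.2 *
        ρ (a.1.2, a.1.1) a.2} := by
      refine measurableSet_eq_fun ?_ (Measurable.mul ?_ ?_)
      · exact hhm.comp (by fun_prop : Measurable fun a : (X × X) × X => (a.1.1, a.2))
      · exact hhm.comp (by fun_prop : Measurable fun a : (X × X) × X => (a.1.2, a.2))
      · exact hρm.comp (by fun_prop : Measurable fun a : (X × X) × X => ((a.1.2, a.1.1), a.2))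
    have b2 : ∀ᵐ x ∂μ w, ∀ᵐ z ∂μ w, ∀ᵐ x' ∂μ w, h x z = h x' z * ρ (x', x) z := by
      refine (Measure.ae_ae_comm
        (p := fun z x => ∀ᵐ x' ∂μ w, h x z = h x' z * ρ (x', x) z) ?_).1 b1
      refine measurableSet_ae_const (A := X × X) (μ w)
        (p := fun a x' => h a.2 a.1 = h x' a.1 * ρ (x', a.2) a.1) ?_
      exact (by fun_prop : Measurable fun a : (X × X) × X => ((a.1.2, a.2), a.1.1)) hm3
    filter_upwards [b2] with x hx
    refine (Measure.ae_ae_comm (p := fun z x' => h x z = h x' z * ρ (x', x) z) ?_).1 hx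
    exact (by fun_prop : Measurable fun a : X × X => ((x, a.2), a.1)) hm3
  -- good points
  set X1 : Set X := {x | ∀ᵐ x' ∂μ x, ∀ᵐ z ∂μ x, h x z = h x' z * ρ (x', x) z} with hX1
  have hX1m : MeasurableSet X1 := by
    refine measurableSet_ae μ (p := fun x x' => ∀ᵐ z ∂μ x, h x z = h x' z * ρ (x', x) z) ?_
    refine measurableSet_ae' (A := X × X) μ (f := Prod.fst) measurable_fst
      (p := fun a z => h a.1 z = h a.2 z * ρ (a.2, a.1) z) ?_
    refine measurableSet_eq_fun ?_ (Measurable.mul ?_ ?_)
    · exact hhm.comp (by fun_prop : Measurable fun a : (X × X) × X => (a.1.1, a.2))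
    · exact hhm.comp (by fun_prop : Measurable fun a : (X × X) × X => (a.1.2, a.2))
    · exact hρm.comp (by fun_prop : Measurable fun a : (X × X) × X => ((a.1.2, a.1.1), a.2))
  have hX1ae : ∀ w, ∀ᵐ x ∂μ w, x ∈ X1 := by
    intro w
    filter_upwards [hkey w, hμE w] with x hx hwx
    have hxw : μ x ≪ μ w := hac x w (hsymm hwx)
    filter_upwards [hxw.ae_le hx] with x' hx'
    exact hxw.ae_le hx'
  have hlam : ∀ x ∈ X1, ∀ᵐ x' ∂μ x, (μ x).withDensity (h x) = (μ x').withDensity (h x') := by
    intro x hx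
    filter_upwards [hx, hμE x] with x' hx' hxx'
    have hE' : E x' x := hsymm hxx'
    have g1 : h x =ᵐ[μ x] (ρ (x', x) * h x') := by
      filter_upwards [hx'] with z hz
      rw [hz, Pi.mul_apply, mul_comm]
    rw [withDensity_congr_ae g1, withDensity_mul _ (hρm' _) (hhm' x'), hρE x' x hE']
  have hlamX1 : ∀ x y, x ∈ X1 → y ∈ X1 → E x y →
      (μ x).withDensity (h x) = (μ y).withDensity (h y) := by
    intro x y hx hy hxy
    have g1 := hlam x hx
    have g2 := (hac x y hxy).ae_le (hlam y hy)
    have : NeZero (μ x) := ⟨hne x⟩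
    obtain ⟨x', hx'1, hx'2⟩ := (g1.and g2).exists
    rw [hx'1, hx'2]
  -- move into the good set
  have hP2m : MeasurableSet {q : X × X | E q.1 q.2 ∧ q.2 ∈ X1} :=
    hEm.inter (measurable_snd hX1m)
  obtain ⟨s, hs, hs1, -⟩ := exists_selection hP2m (φ := id) measurable_id μ
  have hsP : ∀ x, E x (s x) ∧ s x ∈ X1 := by
    intro x
    refine hs1 x (hne x) ?_
    filter_upwards [hμE x, hX1ae x] with y h1 h2
    exact ⟨h1, h2⟩
  have hsm : Measurable (Function.uncurry fun x z => h (s x) z) :=
    hhm.comp ((hs.comp measurable_fst).prodMk measurable_snd)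
  have hΛ : ∀ x, ((μ.comap s hs).withDensity (fun x z => h (s x) z)) x =
      (μ (s x)).withDensity (h (s x)) := by
    intro x
    rw [Kernel.withDensity_apply _ hsm, Kernel.comap_apply]
  refine ⟨(μ.comap s hs).withDensity (fun x z => h (s x) z),
    Kernel.IsSFiniteKernel.withDensity _ (fun x z => (hfin _ _).ne),
    fun x z => (h (s x) z)⁻¹, hsm.inv, ?_, ?_, ?_, ?_, ?_⟩
  · intro x z
    exact ENNReal.inv_pos.2 (hfin _ _).ne
  · intro x z
    exact ENNReal.inv_lt_top.2 (hpos _ _)
  · intro x
    have hm1 : Measurable (fun z => (h (s x) z)⁻¹) := (hhm' (s x)).inv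
    have h1 : ∫⁻ z, (h (s x) z)⁻¹ ∂((μ (s x)).withDensity (h (s x))) = 1 := by
      rw [lintegral_withDensity_eq_lintegral_mul _ (hhm' (s x)) hm1]
      have : ∀ z, (h (s x) * fun z => (h (s x) z)⁻¹) z = 1 := by
        intro z
        rw [Pi.mul_apply]
        exact ENNReal.mul_inv_cancel (hpos _ _).ne' (hfin _ _).ne
      rw [lintegral_congr this]
      simp
    rw [hΛ]
    exact h1
  · intro x
    rw [hΛ]
    refine (withDensity_absolutelyContinuous _ _).ae_le ?_
    filter_upwards [hμE (s x)] with z hz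
    exact htrans (hsP x).1 hz
  · intro x y hxy
    rw [hΛ, hΛ]
    exact hlamX1 _ _ (hsP x).2 (hsP y).2
      (htrans (hsymm (hsP x).1) (htrans hxy (hsP y).1))

end Main

end Pool.Agent.H.MP_a6e06b_lc
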