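import Mathlib
import Pool.Agent.H.MP_a6e06b_lc.Select
import Pool.Agent.H.MP_a6e06b_lc.Invariant

set_option autoImplicit false
set_option linter.all false

open MeasureTheory Set Filter Topology ProbabilityTheory
open scoped ENNReal

namespace Pool.Agent.H.MP_a6e06b_lc

/-- The data of a class invariant s-finite kernel with a symmetric integrable density. -/
structure InvData {X : Type*} [MeasurableSpace X] (E : X → X → Prop) where
  hE : Equivalence E
  hEm : MeasurableSet {p : X × X | E p.1 p.2}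
  Λ : Kernel X X
  sf : IsSFiniteKernel Λ
  g : X → X → ℝ
  hg : Measurable (Function.uncurry g)
  gpos : ∀ x z, 0 < g x z
  gle : ∀ x z, g x z ≤ 1
  gsymm : ∀ x z, g x z = g z x
  gint : ∀ x, ∫⁻ z, ENNReal.ofReal (g x z) ∂Λ x ≤ 1
  hΛ0 : ∀ x, Λ x ≠ 0
  hΛE : ∀ x, ∀ᵐ z ∂Λ x, E x z
  hΛinv : ∀ x y, E x y → Λ x = Λ y

namespace InvData

variable {X : Type*} [MeasurableSpace X] [StandardBorelSpace X] {E : X → X → Prop}
  (D : InvData E)

instance : IsSFiniteKernel D.Λ := D.sf

/-- The distance. -/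
noncomputable def d (x y : X) : ℝ≥0∞ := ∫⁻ z, edist (D.g x z) (D.g y z) ∂D.Λ x

theorem measurable_d : Measurable (Function.uncurry D.d) := by
  have h1 : Measurable fun p : (X × X) × X => edist (D.g p.1.1 p.2) (D.g p.1.2 p.2) := by
    refine Measurable.edist ?_ ?_
    · exact D.hg.comp (by fun_prop : Measurable fun p : (X × X) × X => (p.1.1, p.2))
    · exact D.hg.comp (by fun_prop : Measurable fun p : (X × X) × X => (p.1.2, p.2))
  have h2 := h1.lintegral_kernel_prod_right' (κ := D.Λ.comap Prod.fst measurable_fst)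
  convert h2 using 1
  ext ⟨x, y⟩
  simp [d, Kernel.comap_apply]

theorem d_comm {x y : X} (h : E x y) : D.d x y = D.d y x := by
  unfold d
  rw [D.hΛinv x y h]
  exact lintegral_congr fun z => edist_comm _ _

theorem d_triangle {x y w : X} (h : E x y) : D.d x w ≤ D.d x y + D.d y w := by
  unfold d
  rw [← D.hΛinv x y h]
  have h1 : Measurable fun z => edist (D.g x z) (D.g y z) :=
    (D.hg.comp measurable_prodMk_left).edist (D.hg.comp measurable_prodMk_left)
  rw [← lintegral_add_left h1]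
  exact lintegral_mono fun z => edist_triangle _ _ _

/-- Balls inside classes. -/
def B (x : X) (r : ℝ≥0∞) : Set X := {y | E x y ∧ D.d x y < r}

theorem measurableSet_B' (r : ℝ≥0∞) : MeasurableSet {q : X × X | q.2 ∈ D.B q.1 r} :=
  D.hEm.inter (measurableSet_lt D.measurable_d measurable_const)

theorem measurableSet_B (x : X) (r : ℝ≥0∞) : MeasurableSet (D.B x r) :=
  measurable_prodMk_left (D.measurableSet_B' r)

theorem measurable_g (x : X) : Measurable (D.g x) := D.hg.comp measurable_prodMk_left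

/-- The squared norm. -/
noncomputable def a (x : X) : ℝ≥0∞ :=
  ∫⁻ z, ENNReal.ofReal (D.g x z) * ENNReal.ofReal (D.g x z) ∂D.Λ x

theorem measurable_a : Measurable D.a := by
  have h1 : Measurable fun p : X × X => ENNReal.ofReal (D.g p.1 p.2) := D.hg.ennreal_ofReal
  exact (h1.mul h1).lintegral_kernel_prod_right'

theorem a_pos (x : X) : 0 < D.a x := by
  unfold a
  rw [pos_iff_ne_zero]
  intro h
  have hm : Measurable fun z => ENNReal.ofReal (D.g x z) * ENNReal.ofReal (D.g x z) :=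
    (D.measurable_g x).ennreal_ofReal.mul (D.measurable_g x).ennreal_ofReal
  rw [lintegral_eq_zero_iff hm] at h
  have h2 : ∀ᵐ z ∂D.Λ x, False := by
    filter_upwards [h] with z hz
    have h3 : 0 < ENNReal.ofReal (D.g x z) := ENNReal.ofReal_pos.2 (D.gpos x z)
    simp only [Pi.zero_apply, mul_eq_zero, or_self] at hz
    exact h3.ne' hz
  simp only [eventually_false_iff_eq_bot, ae_eq_bot] at h2
  exact D.hΛ0 x h2

/-- Balls have finite measure. -/
theorem ball_finite {x : X} {r : ℝ≥0∞} (hr : r ≠ 0) (hr' : r ≠ ∞) (hx : 10 * r < D.a x) :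
    D.Λ x (D.B x (5 * r)) < ∞ := by
  set G : X → X → ℝ≥0∞ := fun x z => ENNReal.ofReal (D.g x z) with hG
  have hGm : Measurable fun p : X × X => G p.1 p.2 := D.hg.ennreal_ofReal
  -- the inner product is at least `5 * r` on the ball
  have h1 : ∀ y ∈ D.B x (5 * r), 5 * r ≤ ∫⁻ z, G x z * G y z ∂D.Λ x := by
    intro y hy
    have h2 : D.a x ≤ (∫⁻ z, G x z * G y z ∂D.Λ x) + D.d x y := by
      unfold a d
      have hm : Measurable fun z => G x z * G y z :=
        (D.measurable_g x).ennreal_ofReal.mul (D.measurable_g y).ennreal_ofReal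
      rw [← lintegral_add_left hm]
      refine lintegral_mono fun z => ?_
      simp only [hG]
      rw [← ENNReal.ofReal_mul (D.gpos x z).le, ← ENNReal.ofReal_mul (D.gpos x z).le,
        edist_dist, ← ENNReal.ofReal_add (mul_pos (D.gpos x z) (D.gpos y z)).le dist_nonneg]
      refine ENNReal.ofReal_le_ofReal ?_
      rw [Real.dist_eq]
      have h3 := D.gpos x z
      have h4 := D.gle x z
      have h5 := le_abs_self (D.g x z - D.g y z)
      have h6 := abs_nonneg (D.g x z - D.g y z)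
      nlinarith
    by_contra hcon
    push Not at hcon
    have h7 : D.a x < 5 * r + 5 * r := by
      refine lt_of_le_of_lt h2 ?_
      exact ENNReal.add_lt_add hcon hy.2
    have h8 : 5 * r + 5 * r = 10 * r := by
      rw [← add_mul]
      norm_num
    rw [h8] at h7
    exact absurd h7 (not_lt.2 hx.le)
  -- integrate over the ball
  have h2 : (5 * r) * D.Λ x (D.B x (5 * r)) ≤ 1 := by
    have hm : Measurable fun p : X × X => G x p.2 * G p.1 p.2 :=
      (hGm.comp ((measurable_const (a := x)).prodMk measurable_snd)).mul hGm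
    calc (5 * r) * D.Λ x (D.B x (5 * r))
        = ∫⁻ y in D.B x (5 * r), 5 * r ∂D.Λ x := by rw [setLIntegral_const]
      _ ≤ ∫⁻ y in D.B x (5 * r), ∫⁻ z, G x z * G y z ∂D.Λ x ∂D.Λ x :=
          setLIntegral_mono' (D.measurableSet_B x _) h1
      _ ≤ ∫⁻ y, ∫⁻ z, G x z * G y z ∂D.Λ x ∂D.Λ x := setLIntegral_le_lintegral _ _
      _ = ∫⁻ z, ∫⁻ y, G x z * G y z ∂D.Λ x ∂D.Λ x := by
          rw [lintegral_lintegral_swap]
          exact hm.aemeasurable
      _ = ∫⁻ z, G x z * ∫⁻ y, G y z ∂D.Λ x ∂D.Λ x := by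
          refine lintegral_congr fun z => ?_
          rw [lintegral_const_mul]
          exact hGm.comp (measurable_prodMk_right (y := z))
      _ ≤ ∫⁻ z, G x z * 1 ∂D.Λ x := by
          refine lintegral_mono_ae ?_
          filter_upwards [D.hΛE x] with z hz
          gcongr
          have : ∫⁻ y, G y z ∂D.Λ x = ∫⁻ y, G z y ∂D.Λ z := by
            rw [D.hΛinv x z hz]
            refine lintegral_congr fun y => ?_
            simp only [hG, D.gsymm y z]
          rw [this]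
          exact D.gint z
      _ ≤ 1 := by
          simp only [mul_one]
          exact D.gint x
  by_contra hcon
  have h3 : D.Λ x (D.B x (5 * r)) = ∞ := by
    rwa [not_lt, top_le_iff] at hcon
  rw [h3, ENNReal.mul_top (by simpa using hr)] at h2
  simp at h2

/-- Every measurable subset of positive measure of a class has a point near which it has
positive measure. -/
theorem exists_near_pos (x₀ : X) {S : Set X} (hS : ∀ x ∈ S, E x₀ x)
    (hpos : D.Λ x₀ S ≠ 0) {r : ℝ≥0∞} (hr : 0 < r) :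
    ∃ x ∈ S, D.Λ x₀ (S ∩ {y | D.d x y < r}) ≠ 0 := by
  classical
  have hint : ∀ y, E x₀ y → Integrable (D.g y) (D.Λ x₀) := by
    intro y hy
    refine ⟨(D.measurable_g y).aestronglyMeasurable, ?_⟩
    rw [hasFiniteIntegral_iff_enorm]
    have h1 : ∫⁻ z, ‖D.g y z‖ₑ ∂D.Λ x₀ = ∫⁻ z, ENNReal.ofReal (D.g y z) ∂D.Λ y := by
      rw [D.hΛinv x₀ y hy]
      refine lintegral_congr fun z => ?_
      rw [Real.enorm_eq_ofReal (D.gpos y z).le]
    rw [h1]
    exact lt_of_le_of_lt (D.gint y) ENNReal.one_lt_top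
  let F : X → Lp ℝ 1 (D.Λ x₀) := fun y => if hy : E x₀ y then (hint y hy).toL1 (D.g y) else 0
  have hF : ∀ x y, E x₀ x → E x₀ y → edist (F x) (F y) = D.d x y := by
    intro x y hx hy
    simp only [F]
    rw [dif_pos hx, dif_pos hy, Integrable.edist_toL1_toL1]
    unfold d
    rw [D.hΛinv x₀ x hx]
  have : Fact ((1 : ℝ≥0∞) ≠ ∞) := ⟨ENNReal.one_ne_top⟩
  obtain ⟨t, htS, htc, ht⟩ := TopologicalSpace.countable_cover_nhdsWithin
    (f := fun u : Lp ℝ 1 (D.Λ x₀) => EMetric.ball u r) (s := F '' S)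
    (fun u _ => mem_nhdsWithin_of_mem_nhds (EMetric.ball_mem_nhds u hr))
  have hsel : ∀ u ∈ t, ∃ x ∈ S, F x = u := fun u hu => htS hu
  by_contra hcon
  push Not at hcon
  apply hpos
  have hcov : S ⊆ ⋃ u ∈ t, {y | y ∈ S ∧ edist (F y) u < r} := by
    intro y hy
    obtain ⟨u, hu, hu'⟩ := mem_iUnion₂.1 (ht ⟨y, hy, rfl⟩)
    exact mem_iUnion₂.2 ⟨u, hu, hy, hu'⟩
  refine measure_mono_null hcov ?_
  rw [measure_biUnion_null_iff htc]
  intro u hu
  obtain ⟨x, hxS, rfl⟩ := hsel u hu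
  refine measure_mono_null ?_ (hcon x hxS)
  rintro y ⟨hyS, hy⟩
  refine ⟨hyS, ?_⟩
  rw [hF y x (hS y hyS) (hS x hxS)] at hy
  show D.d x y < r
  rw [D.d_comm (D.hE.trans (D.hE.symm (hS x hxS)) (hS y hyS))]
  exact hy

/-- The pieces on which nearness is an equivalence relation. -/
def P (r : ℝ≥0∞) (A : Set X) : Set X :=
  {x | 10 * r < D.a x ∧ 2 * D.Λ x ((symmDiff (D.B x r) A) ∩ D.B x (5 * r)) < D.Λ x (D.B x r)}

theorem measurableSet_P (r : ℝ≥0∞) {A : Set X} (hA : MeasurableSet A) :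
    MeasurableSet (D.P r A) := by
  have h1 : MeasurableSet {x | 10 * r < D.a x} := measurableSet_lt measurable_const D.measurable_a
  have h2 : Measurable fun x => D.Λ x (D.B x r) :=
    Kernel.measurable_kernel_prodMk_left (D.measurableSet_B' r)
  have h3 : Measurable fun x => D.Λ x ((symmDiff (D.B x r) A) ∩ D.B x (5 * r)) := by
    have h4 : MeasurableSet {q : X × X | q.2 ∈ (symmDiff (D.B q.1 r) A) ∩ D.B q.1 (5 * r)} := by
      have h5 := D.measurableSet_B' r
      have h6 := D.measurableSet_B' (5 * r)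
      have h7 : MeasurableSet {q : X × X | q.2 ∈ A} := measurable_snd hA
      have : {q : X × X | q.2 ∈ (symmDiff (D.B q.1 r) A) ∩ D.B q.1 (5 * r)} =
        (({q : X × X | q.2 ∈ D.B q.1 r} \ {q : X × X | q.2 ∈ A}) ∪
        ({q : X × X | q.2 ∈ A} \ {q : X × X | q.2 ∈ D.B q.1 r})) ∩
        {q : X × X | q.2 ∈ D.B q.1 (5 * r)} := by
        ext q
        rfl
      rw [this]
      exact ((h5.diff h7).union (h7.diff h5)).inter h6
    exact Kernel.measurable_kernel_prodMk_left h4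
  exact h1.inter (measurableSet_lt (measurable_const.mul h3) h2)

theorem ball_subset {x y : X} (hxy : E x y) {r s t : ℝ≥0∞} (hd : D.d x y < s)
    (h : s + r ≤ t) : D.B y r ⊆ D.B x t := by
  intro z hz
  refine ⟨D.hE.trans hxy hz.1, ?_⟩
  calc D.d x z ≤ D.d x y + D.d y z := D.d_triangle hxy
    _ < s + r := ENNReal.add_lt_add hd hz.2
    _ ≤ t := h

theorem P_gap_aux {r : ℝ≥0∞} {A : Set X} (hA : MeasurableSet A) {x y : X} (hx : x ∈ D.P r A)
    (hy : y ∈ D.P r A) (hxy : E x y) (hd : D.d x y < 4 * r)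
    (hle : D.Λ x (D.B x r) ≤ D.Λ x (D.B y r)) : D.d x y < 2 * r := by
  by_contra hcon
  have hr5 : r ≤ 5 * r := by
    calc r = 1 * r := (one_mul r).symm
      _ ≤ 5 * r := by gcongr; norm_num
  have h45 : 4 * r + r ≤ 5 * r := by
    rw [← add_one_mul]
    norm_num
  have hdisj : ∀ z, z ∈ D.B y r → z ∉ D.B x r := by
    intro z hzy hzx
    apply hcon
    calc D.d x y ≤ D.d x z + D.d z y := D.d_triangle hzx.1
      _ = D.d x z + D.d y z := by rw [D.d_comm hzy.1]
      _ < r + r := ENNReal.add_lt_add hzx.2 hzy.2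
      _ = 2 * r := (two_mul r).symm
  have hΛ := D.hΛinv x y hxy
  have s1 : D.B y r ∩ A ⊆ (symmDiff (D.B x r) A) ∩ D.B x (5 * r) := by
    rintro z ⟨hz1, hz2⟩
    exact ⟨Or.inr ⟨hz2, hdisj z hz1⟩, D.ball_subset hxy hd h45 hz1⟩
  have s2 : D.B y r \ A ⊆ (symmDiff (D.B y r) A) ∩ D.B y (5 * r) := by
    rintro z ⟨hz1, hz2⟩
    exact ⟨Or.inl ⟨hz1, hz2⟩, hz1.1, lt_of_lt_of_le hz1.2 hr5⟩
  have m1 : 2 * D.Λ x (D.B y r ∩ A) < D.Λ x (D.B y r) := by
    refine lt_of_le_of_lt ?_ (lt_of_lt_of_le hx.2 hle)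
    gcongr
  have m2 : 2 * D.Λ x (D.B y r \ A) < D.Λ x (D.B y r) := by
    rw [hΛ]
    refine lt_of_le_of_lt ?_ hy.2
    gcongr
  have m3 : D.Λ x (D.B y r) = D.Λ x (D.B y r ∩ A) + D.Λ x (D.B y r \ A) :=
    (measure_inter_add_diff _ hA).symm
  have m4 : 2 * D.Λ x (D.B y r) < 2 * D.Λ x (D.B y r) := by
    calc 2 * D.Λ x (D.B y r) = 2 * D.Λ x (D.B y r ∩ A) + 2 * D.Λ x (D.B y r \ A) := by
          rw [← mul_add, ← m3]
      _ < D.Λ x (D.B y r) + D.Λ x (D.B y r) := ENNReal.add_lt_add m1 m2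
      _ = 2 * D.Λ x (D.B y r) := (two_mul _).symm
  exact lt_irrefl _ m4

theorem P_gap {r : ℝ≥0∞} {A : Set X} (hA : MeasurableSet A) {x y : X} (hx : x ∈ D.P r A)
    (hy : y ∈ D.P r A) (hxy : E x y) (hd : D.d x y < 4 * r) : D.d x y < 2 * r := by
  rcases le_total (D.Λ x (D.B x r)) (D.Λ x (D.B y r)) with h | h
  · exact D.P_gap_aux hA hx hy hxy hd h
  · have hyx := D.hE.symm hxy
    rw [D.d_comm hxy] at hd ⊢
    refine D.P_gap_aux hA hy hx hyx hd ?_
    rw [D.hΛinv y x hyx]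
    exact h

/-- The nearness relation on a piece. -/
def T (r : ℝ≥0∞) (A : Set X) : Set (X × X) :=
  {q | q.1 ∈ D.P r A ∧ q.2 ∈ D.P r A ∧ E q.1 q.2 ∧ D.d q.1 q.2 < 2 * r}

theorem measurableSet_T (r : ℝ≥0∞) {A : Set X} (hA : MeasurableSet A) :
    MeasurableSet (D.T r A) :=
  (measurable_fst (D.measurableSet_P r hA)).inter
    ((measurable_snd (D.measurableSet_P r hA)).inter (D.measurableSet_B' (2 * r)))

theorem T_symm {r : ℝ≥0∞} {A : Set X} {x y : X} (h : (x, y) ∈ D.T r A) : (y, x) ∈ D.T r A :=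
  ⟨h.2.1, h.1, D.hE.symm h.2.2.1, (D.d_comm h.2.2.1) ▸ h.2.2.2⟩

theorem T_trans {r : ℝ≥0∞} {A : Set X} (hA : MeasurableSet A) {x y z : X}
    (h : (x, y) ∈ D.T r A) (h' : (y, z) ∈ D.T r A) : (x, z) ∈ D.T r A := by
  refine ⟨h.1, h'.2.1, D.hE.trans h.2.2.1 h'.2.2.1, ?_⟩
  refine D.P_gap hA h.1 h'.2.1 (D.hE.trans h.2.2.1 h'.2.2.1) ?_
  calc D.d x z ≤ D.d x y + D.d y z := D.d_triangle h.2.2.1
    _ < 2 * r + 2 * r := ENNReal.add_lt_add h.2.2.2 h'.2.2.2
    _ = 4 * r := by rw [← add_mul]; norm_num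

/-- The measure restricted to the nearness class. -/
noncomputable def θ (r : ℝ≥0∞) (A : Set X) : Kernel X X :=
  D.Λ.withDensity fun x y => (D.T r A).indicator (fun _ => 1) (x, y)

theorem θ_apply (r : ℝ≥0∞) {A : Set X} (hA : MeasurableSet A) (x : X) :
    D.θ r A x = (D.Λ x).restrict {y | (x, y) ∈ D.T r A} := by
  have hm : Measurable (Function.uncurry fun x y =>
      (D.T r A).indicator (fun _ => (1 : ℝ≥0∞)) (x, y)) :=
    measurable_const.indicator (D.measurableSet_T r hA)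
  have hs : MeasurableSet {y | (x, y) ∈ D.T r A} := measurable_prodMk_left (D.measurableSet_T r hA)
  rw [θ, Kernel.withDensity_apply _ hm, ← withDensity_indicator_one hs]
  rfl

instance (r : ℝ≥0∞) (A : Set X) : IsSFiniteKernel (D.θ r A) := by
  refine Kernel.IsSFiniteKernel.withDensity _ fun x y => ?_
  by_cases h : (x, y) ∈ D.T r A
  · rw [Set.indicator_of_mem h]
    exact ENNReal.one_ne_top
  · rw [Set.indicator_of_notMem h]
    exact ENNReal.zero_ne_top

theorem θ_finite {r : ℝ≥0∞} (hr : r ≠ 0) (hr' : r ≠ ∞) {A : Set X} (hA : MeasurableSet A)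
    (x : X) : IsFiniteMeasure (D.θ r A x) := by
  refine ⟨?_⟩
  rw [D.θ_apply r hA, Measure.restrict_apply MeasurableSet.univ, univ_inter]
  by_cases hx : x ∈ D.P r A
  · refine lt_of_le_of_lt (measure_mono ?_) (D.ball_finite hr hr' hx.1)
    rintro y ⟨-, -, h1, h2⟩
    refine ⟨h1, lt_of_lt_of_le h2 ?_⟩
    gcongr
    norm_num
  · have : {y | (x, y) ∈ D.T r A} = ∅ := by
      rw [Set.eq_empty_iff_forall_notMem]
      intro y hy
      exact hx hy.1
    rw [this, measure_empty]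
    exact ENNReal.zero_lt_top

theorem θ_eq {r : ℝ≥0∞} {A : Set X} (hA : MeasurableSet A) {x y : X}
    (h : (x, y) ∈ D.T r A) : D.θ r A x = D.θ r A y := by
  rw [D.θ_apply r hA, D.θ_apply r hA, D.hΛinv x y h.2.2.1]
  congr 1
  ext z
  exact ⟨fun hz => D.T_trans hA (D.T_symm h) hz, fun hz => D.T_trans hA h hz⟩

theorem θ_ne_zero_iff {r : ℝ≥0∞} {A : Set X} (hA : MeasurableSet A) {x : X} :
    D.θ r A x ≠ 0 ↔ D.Λ x {y | (x, y) ∈ D.T r A} ≠ 0 := by
  rw [D.θ_apply r hA, Ne, Measure.restrict_eq_zero]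

theorem T_of_θ_eq {r : ℝ≥0∞} {A : Set X} (hA : MeasurableSet A) {x y : X}
    (h : D.θ r A x = D.θ r A y) (h0 : D.θ r A x ≠ 0) : (x, y) ∈ D.T r A := by
  have h1 : ∀ᵐ z ∂D.θ r A x, (x, z) ∈ D.T r A := by
    rw [D.θ_apply r hA]
    exact ae_restrict_mem (measurable_prodMk_left (D.measurableSet_T r hA))
  have h2 : ∀ᵐ z ∂D.θ r A x, (y, z) ∈ D.T r A := by
    rw [h, D.θ_apply r hA]
    exact ae_restrict_mem (measurable_prodMk_left (D.measurableSet_T r hA))
  have : NeZero (D.θ r A x) := ⟨h0⟩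
  obtain ⟨z, hz1, hz2⟩ := (h1.and h2).exists
  exact D.T_trans hA hz1 (D.T_symm hz2)

/-- On each piece there is a Borel countable section meeting all classes which meet the
essential part of the piece. -/
theorem exists_section_piece {r : ℝ≥0∞} (hr : r ≠ 0) (hr' : r ≠ ∞) {A : Set X}
    (hA : MeasurableSet A) :
    ∃ S : Set X, MeasurableSet S ∧ (∀ x₀, (S ∩ {y | E x₀ y}).Countable) ∧
      ∀ x, D.θ r A x ≠ 0 → (S ∩ {y | E x y}).Nonempty := by
  classical
  rcases isEmpty_or_nonempty X with hX | hX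
  · exact ⟨∅, MeasurableSet.empty, fun x₀ => (IsEmpty.false x₀).elim,
      fun x => (IsEmpty.false x).elim⟩
  -- a countable algebra generating the sigma-algebra
  set 𝒜 : Set (Set X) := generateSetAlgebra (MeasurableSpace.countableGeneratingSet X) with h𝒜
  have h𝒜c : 𝒜.Countable :=
    countable_generateSetAlgebra (MeasurableSpace.countable_countableGeneratingSet)
  have h𝒜alg : IsSetAlgebra 𝒜 := isSetAlgebra_generateSetAlgebra
  have h𝒜gen : MeasurableSpace.generateFrom 𝒜 = ‹MeasurableSpace X› := by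
    rw [h𝒜, generateFrom_generateSetAlgebra_eq]
    exact MeasurableSpace.generateFrom_countableGeneratingSet
  have h𝒜ne : 𝒜.Nonempty := ⟨univ, h𝒜alg.univ_mem⟩
  obtain ⟨V, hV⟩ := h𝒜c.exists_eq_range h𝒜ne
  have hVm : ∀ n, MeasurableSet (V n) := by
    intro n
    have h1 : V n ∈ 𝒜 := hV ▸ mem_range_self n
    have h2 := MeasurableSpace.measurableSet_generateFrom h1
    rwa [h𝒜gen] at h2
  set Θ : X → (ℕ → ℝ≥0∞) := fun x n => D.θ r A x (V n) with hΘ
  have hΘm : Measurable Θ := measurable_pi_lambda _ fun n => Kernel.measurable_coe _ (hVm n)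
  have hΘinj : ∀ x y, Θ x = Θ y → D.θ r A x = D.θ r A y := by
    intro x y h
    have := D.θ_finite hr hr' hA x
    have := D.θ_finite hr hr' hA y
    refine ext_of_generate_finite 𝒜 h𝒜gen.symm ?_ ?_ ?_
    · intro s hs t ht _
      exact h𝒜alg.inter_mem hs ht
    · intro s hs
      rw [hV] at hs
      obtain ⟨n, rfl⟩ := hs
      exact congrFun h n
    · have hs := h𝒜alg.univ_mem
      rw [hV] at hs
      obtain ⟨n, hn⟩ := hs
      rw [← hn]
      exact congrFun h n
  set Q : Set ((ℕ → ℝ≥0∞) × X) := {q | q.2 ∈ D.P r A ∧ D.θ r A q.2 ≠ 0 ∧ Θ q.2 = q.1} with hQ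
  have hQm : MeasurableSet Q := by
    refine (measurable_snd (D.measurableSet_P r hA)).inter (MeasurableSet.inter ?_ ?_)
    · have h1 : MeasurableSet {y : X | D.θ r A y ≠ 0} := by
        have : {y : X | D.θ r A y ≠ 0} = (fun y => D.θ r A y univ) ⁻¹' {0}ᶜ := by
          ext y
          simp
        rw [this]
        exact (Kernel.measurable_coe _ MeasurableSet.univ) (measurableSet_singleton 0).compl
      exact measurable_snd h1
    · exact measurableSet_eq_fun (hΘm.comp measurable_snd) measurable_fst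
  obtain ⟨σ, hσm, hσ1, hσ2⟩ := exists_selection hQm hΘm (D.θ r A)
  have hσ : ∀ x, D.θ r A x ≠ 0 → (Θ x, σ x) ∈ Q := by
    intro x hx
    refine hσ1 x hx ?_
    have h1 : ∀ᵐ z ∂D.θ r A x, (x, z) ∈ D.T r A := by
      rw [D.θ_apply r hA]
      exact ae_restrict_mem (measurable_prodMk_left (D.measurableSet_T r hA))
    filter_upwards [h1] with y hy
    have h2 := D.θ_eq hA hy
    refine ⟨hy.2.1, ?_, ?_⟩
    · simp only
      rw [← h2]
      exact hx
    · simp only [hΘ]
      rw [h2]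
  set S : Set X := {x | x ∈ D.P r A ∧ D.θ r A x ≠ 0 ∧ σ x = x} with hS
  have hSm : MeasurableSet S := by
    have h1 : S = (fun x => (Θ x, x)) ⁻¹' Q ∩ {x | σ x = x} := by
      ext x
      simp only [hS, hQ, mem_ofPred_eq, mem_inter_iff, mem_preimage]
      tauto
    rw [h1]
    exact ((hΘm.prodMk measurable_id) hQm).inter (measurableSet_eq_fun hσm measurable_id)
  refine ⟨S, hSm, ?_, ?_⟩
  · intro x₀
    have hinj : ∀ x y, x ∈ S → y ∈ S → (x, y) ∈ D.T r A → x = y := by
      intro x y hx hy hxy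
      have h1 := D.θ_eq hA hxy
      have h2 : Θ x = Θ y := by
        simp only [hΘ]
        rw [h1]
      have h3 := hσ2 x y h2 h1
      rw [hx.2.2, hy.2.2] at h3
      exact h3
    have hcount : Set.Countable {i : ↥(S ∩ {y | E x₀ y}) |
        0 < D.Λ x₀ {y | ((i : X), y) ∈ D.T r A}} := by
      refine Measure.countable_meas_pos_of_disjoint_iUnion (μ := D.Λ x₀)
        (As := fun i : ↥(S ∩ {y | E x₀ y}) => {y | ((i : X), y) ∈ D.T r A})
        (fun i => measurable_prodMk_left (D.measurableSet_T r hA)) ?_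
      intro i j hij
      rw [Function.onFun, Set.disjoint_left]
      intro y hy1 hy2
      apply hij
      exact Subtype.ext (hinj _ _ i.2.1 j.2.1 (D.T_trans hA hy1 (D.T_symm hy2)))
    have huniv : {i : ↥(S ∩ {y | E x₀ y}) | 0 < D.Λ x₀ {y | ((i : X), y) ∈ D.T r A}} = univ := by
      rw [Set.eq_univ_iff_forall]
      rintro ⟨i, hi1, hi2⟩
      have h1 := (D.θ_ne_zero_iff hA).1 hi1.2.1
      have h2 : D.Λ x₀ = D.Λ i := D.hΛinv _ _ hi2
      simp only [mem_ofPred_eq, h2]
      exact pos_iff_ne_zero.2 h1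
    rw [huniv, Set.countable_univ_iff] at hcount
    exact Set.countable_coe_iff.1 hcount
  · intro x hx
    have h1 := hσ x hx
    simp only [hQ, mem_ofPred_eq] at h1
    obtain ⟨h2, h3, h4⟩ := h1
    have h5 : D.θ r A x = D.θ r A (σ x) := (hΘinj _ _ h4).symm
    refine ⟨σ x, ⟨h2, h3, ?_⟩, ?_⟩
    · exact (hσ2 x (σ x) h4.symm h5).symm
    · exact (D.T_of_θ_eq hA h5 hx).2.2.1

include D in
/-- The main result of this section: existence of a countable Borel section. -/
theorem exists_section : ∃ S : Set X, MeasurableSet S ∧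
    ∀ x, (S ∩ {y | E x y}).Countable ∧ (S ∩ {y | E x y}).Nonempty := by
  classical
  set 𝒜 : Set (Set X) := generateSetAlgebra (MeasurableSpace.countableGeneratingSet X) with h𝒜
  have h𝒜c : 𝒜.Countable :=
    countable_generateSetAlgebra (MeasurableSpace.countable_countableGeneratingSet)
  have h𝒜alg : IsSetAlgebra 𝒜 := isSetAlgebra_generateSetAlgebra
  have h𝒜gen : MeasurableSpace.generateFrom 𝒜 = ‹MeasurableSpace X› := by
    rw [h𝒜, generateFrom_generateSetAlgebra_eq]
    exact MeasurableSpace.generateFrom_countableGeneratingSet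
  have h𝒜ne : 𝒜.Nonempty := ⟨univ, h𝒜alg.univ_mem⟩
  obtain ⟨V, hV⟩ := h𝒜c.exists_eq_range h𝒜ne
  have hVm : ∀ n, MeasurableSet (V n) := by
    intro n
    have h1 : V n ∈ 𝒜 := hV ▸ mem_range_self n
    have h2 := MeasurableSpace.measurableSet_generateFrom h1
    rwa [h𝒜gen] at h2
  set r : ℕ → ℝ≥0∞ := fun n => ((n : ℝ≥0∞) + 1)⁻¹ with hr
  have hr0 : ∀ n, r n ≠ 0 := fun n => by
    simp only [hr]
    exact ENNReal.inv_ne_zero.2 (by finiteness)
  have hr1 : ∀ n, r n ≠ ∞ := fun n => by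
    simp only [hr]
    exact ENNReal.inv_ne_top.2 (by simp)
  choose S hS1 hS2 hS3 using fun (p : ℕ × ℕ) =>
    D.exists_section_piece (hr0 p.1) (hr1 p.1) (hVm p.2)
  -- every class meets one of the pieces
  have key : ∀ x₀, ∃ p : ℕ × ℕ, ∃ x, E x₀ x ∧ D.θ (r p.1) (V p.2) x ≠ 0 := by
    intro x₀
    have hcls : D.Λ x₀ {x | E x₀ x} ≠ 0 := by
      intro h
      have h1 : ∀ᵐ x ∂D.Λ x₀, ¬ E x₀ x := by
        rw [ae_iff]
        simpa using h
      have h2 : ∀ᵐ x ∂D.Λ x₀, False := by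
        filter_upwards [h1, D.hΛE x₀] with x hx hx'
        exact hx hx'
      simp only [eventually_false_iff_eq_bot, ae_eq_bot] at h2
      exact D.hΛ0 x₀ h2
    -- choose the scale
    have hn : ∃ n, D.Λ x₀ {x | E x₀ x ∧ 10 * r n < D.a x} ≠ 0 := by
      by_contra hcon
      push Not at hcon
      apply hcls
      refine measure_mono_null ?_ (measure_iUnion_null hcon)
      intro x hx
      have h1 : Tendsto (fun n => 10 * r n) atTop (𝓝 0) := by
        have h2 : Tendsto (fun n : ℕ => ((n : ℝ≥0∞) + 1)⁻¹) atTop (𝓝 0) := by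
          have h3 := (tendsto_add_atTop_iff_nat 1).2 ENNReal.tendsto_inv_nat_nhds_zero
          simpa using h3
        have h4 := ENNReal.Tendsto.const_mul h2 (a := (10 : ℝ≥0∞)) (Or.inr (by norm_num))
        simpa [hr] using h4
      obtain ⟨n, hn⟩ := (h1.eventually (gt_mem_nhds (D.a_pos x))).exists
      exact mem_iUnion.2 ⟨n, hx, hn⟩
    obtain ⟨n, hn⟩ := hn
    -- almost all points have balls of positive measure
    have hball : D.Λ x₀ {x | E x₀ x ∧ 10 * r n < D.a x ∧ D.Λ x (D.B x (r n)) ≠ 0} ≠ 0 := by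
      intro h
      have h1 : D.Λ x₀ {x | E x₀ x ∧ 10 * r n < D.a x ∧ D.Λ x (D.B x (r n)) = 0} ≠ 0 := by
        intro h'
        apply hn
        refine measure_mono_null ?_ (measure_union_null h h')
        rintro x ⟨hx1, hx2⟩
        by_cases hx3 : D.Λ x (D.B x (r n)) = 0
        · exact Or.inr ⟨hx1, hx2, hx3⟩
        · exact Or.inl ⟨hx1, hx2, hx3⟩
      obtain ⟨x, hx, hx'⟩ := D.exists_near_pos x₀
        (S := {x | E x₀ x ∧ 10 * r n < D.a x ∧ D.Λ x (D.B x (r n)) = 0})
        (fun x hx => hx.1) h1 (pos_iff_ne_zero.2 (hr0 n))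
      apply hx'
      rw [D.hΛinv x₀ x hx.1]
      refine measure_mono_null ?_ hx.2.2
      rintro y ⟨hy1, hy2⟩
      exact ⟨D.hE.trans (D.hE.symm hx.1) hy1.1, hy2⟩
    -- each such point is in some piece
    have hpiece : ∀ x, 10 * r n < D.a x → D.Λ x (D.B x (r n)) ≠ 0 → ∃ m, x ∈ D.P (r n) (V m) := by
      intro x hx1 hx2
      have hfin := D.ball_finite (hr0 n) (hr1 n) hx1
      have hfm : IsFiniteMeasure ((D.Λ x).restrict (D.B x (5 * r n))) :=
        ⟨by rwa [Measure.restrict_apply MeasurableSet.univ, univ_inter]⟩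
      have hBsub : D.B x (r n) ⊆ D.B x (5 * r n) := by
        intro y hy
        refine ⟨hy.1, lt_of_lt_of_le hy.2 ?_⟩
        calc r n = 1 * r n := (one_mul _).symm
          _ ≤ 5 * r n := by gcongr; norm_num
      have hBfin : D.Λ x (D.B x (r n)) ≠ ∞ := (lt_of_le_of_lt (measure_mono hBsub) hfin).ne
      set ε : ℝ := (D.Λ x (D.B x (r n))).toReal / 2 with hε
      have hεpos : 0 < ε := by
        have := ENNReal.toReal_pos hx2 hBfin
        positivity
      have hdense := Measure.MeasureDense.of_generateFrom_isSetAlgebra_finite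
        ((D.Λ x).restrict (D.B x (5 * r n))) h𝒜alg h𝒜gen.symm
      obtain ⟨t, ht𝒜, ht⟩ := hdense.approx (D.B x (r n)) (D.measurableSet_B _ _)
        (measure_ne_top _ _) ε hεpos
      rw [hV] at ht𝒜
      obtain ⟨m, rfl⟩ := ht𝒜
      refine ⟨m, hx1, ?_⟩
      rw [Measure.restrict_apply ((D.measurableSet_B _ _).symmDiff (hVm m))] at ht
      have h2 : (2 : ℝ≥0∞) * ENNReal.ofReal ε = D.Λ x (D.B x (r n)) := by
        rw [hε, ← ENNReal.ofReal_ofNat, ← ENNReal.ofReal_mul (by norm_num),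
          mul_div_cancel₀ _ (by norm_num), ENNReal.ofReal_toReal hBfin]
      calc 2 * D.Λ x (symmDiff (D.B x (r n)) (V m) ∩ D.B x (5 * r n))
          < 2 * ENNReal.ofReal ε := by
            rw [ENNReal.mul_lt_mul_iff_right (by norm_num) (by norm_num)]
            exact ht
        _ = _ := h2
    have hm : ∃ m, D.Λ x₀ {x | E x₀ x ∧ x ∈ D.P (r n) (V m)} ≠ 0 := by
      by_contra hcon
      push Not at hcon
      apply hball
      refine measure_mono_null ?_ (measure_iUnion_null hcon)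
      rintro x ⟨hx1, hx2, hx3⟩
      obtain ⟨m, hm⟩ := hpiece x hx2 hx3
      exact mem_iUnion.2 ⟨m, hx1, hm⟩
    obtain ⟨m, hm⟩ := hm
    obtain ⟨x, hx, hx'⟩ := D.exists_near_pos x₀ (S := {x | E x₀ x ∧ x ∈ D.P (r n) (V m)})
      (fun x hx => hx.1) hm (pos_iff_ne_zero.2 (hr0 n))
    refine ⟨(n, m), x, hx.1, ?_⟩
    rw [D.θ_ne_zero_iff (hVm m)]
    intro h
    apply hx'
    rw [D.hΛinv x₀ x hx.1]
    refine measure_mono_null ?_ h
    rintro y ⟨hy1, hy2⟩
    refine ⟨hx.2, hy1.2, D.hE.trans (D.hE.symm hx.1) hy1.1, lt_of_lt_of_le hy2 ?_⟩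
    calc r n = 1 * r n := (one_mul _).symm
      _ ≤ 2 * r n := by gcongr; norm_num
  refine ⟨⋃ p, S p, MeasurableSet.iUnion hS1, fun x₀ => ⟨?_, ?_⟩⟩
  · rw [iUnion_inter]
    exact countable_iUnion fun p => hS2 p x₀
  · obtain ⟨p, x, hx1, hx2⟩ := key x₀
    obtain ⟨y, hy1, hy2⟩ := hS3 p x hx2
    exact ⟨y, mem_iUnion.2 ⟨p, hy1⟩, D.hE.trans hx1 hy2⟩

end InvData

end Pool.Agent.H.MP_a6e06b_lc
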