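import Mathlib

set_option autoImplicit false
set_option linter.all false

open MeasureTheory Set Filter Topology

namespace Pool.Agent.H.MP_a6e06b_lc

section Separation

variable {X : Type*} [TopologicalSpace X] [PolishSpace X] [MeasurableSpace X] [BorelSpace X]

theorem analytic_inter {A B : Set X} (hA : AnalyticSet A) (hB : AnalyticSet B) :
    AnalyticSet (A ∩ B) := by
  have : A ∩ B = ⋂ b : Bool, cond b A B := by
    rw [← Set.inter_eq_iInter]
  rw [this]
  refine AnalyticSet.iInter fun b => ?_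
  cases b
  · exact hB
  · exact hA

theorem analytic_diff {A B : Set X} (hA : AnalyticSet A) (hB : MeasurableSet B) :
    AnalyticSet (A \ B) :=
  analytic_inter hA hB.compl.analyticSet

theorem exists_borel_superset_aux {ι : Type*} (D : ι → Set X)
    (hD : ∀ i, AnalyticSet (D i)) (s : Finset ι) :
    ∀ A : Set X, AnalyticSet A → A ∩ ⋂ i ∈ s, D i = ∅ →
    ∃ (C : Set X) (B : ι → Set X), MeasurableSet C ∧ (∀ i, MeasurableSet (B i)) ∧
      A ⊆ C ∧ (∀ i, D i ⊆ B i) ∧ C ∩ ⋂ i ∈ s, B i = ∅ := by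
  classical
  induction s using Finset.induction_on with
  | empty =>
    intro A hA h
    refine ⟨∅, fun _ => univ, MeasurableSet.empty, fun _ => MeasurableSet.univ, ?_, ?_, ?_⟩
    · simp at h
      simp [h]
    · intro i
      exact subset_univ _
    · simp
  | insert a s ha ih =>
    intro A hA h
    have h1 : (A ∩ D a) ∩ ⋂ i ∈ s, D i = ∅ := by
      rw [← h, Finset.set_biInter_insert, inter_assoc]
    obtain ⟨C', B', hC', hB', hAC', hDB', hemp⟩ := ih (A ∩ D a) (analytic_inter hA (hD a)) h1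
    have h2 : Disjoint (A \ C') (D a \ C') := by
      rw [Set.disjoint_left]
      rintro x ⟨hx1, hx2⟩ ⟨hx3, -⟩
      exact hx2 (hAC' ⟨hx1, hx3⟩)
    obtain ⟨u, hu1, hu2, hu3⟩ :=
      (analytic_diff hA hC').measurablySeparable (analytic_diff (hD a) hC') h2
    refine ⟨u ∪ C', fun i => if i = a then (uᶜ ∪ C') else B' i, hu3.union hC', ?_, ?_, ?_, ?_⟩
    · intro i
      dsimp only
      split_ifs
      · exact hu3.compl.union hC'
      · exact hB' i
    · intro x hx
      by_cases hxC : x ∈ C'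
      · exact Or.inr hxC
      · exact Or.inl (hu1 ⟨hx, hxC⟩)
    · intro i x hx
      dsimp only
      split_ifs with hia
      · subst hia
        by_cases hxC : x ∈ C'
        · exact Or.inr hxC
        · exact Or.inl (Set.disjoint_left.1 hu2 ⟨hx, hxC⟩)
      · exact hDB' i hx
    · rw [Finset.set_biInter_insert, if_pos rfl]
      rw [Set.eq_empty_iff_forall_notMem] at hemp ⊢
      rintro x ⟨hx1, hx2, hx3⟩
      have hxC : x ∈ C' := by
        rcases hx1 with hx1 | hx1
        · rcases hx2 with hx2 | hx2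
          · exact absurd hx1 hx2
          · exact hx2
        · exact hx1
      refine hemp x ⟨hxC, ?_⟩
      simp only [mem_iInter] at hx3 ⊢
      intro i hi
      have hia : i ≠ a := by
        rintro rfl
        exact ha hi
      have := hx3 i hi
      rwa [if_neg hia] at this

/-- Finitely many analytic sets with empty intersection are contained in Borel sets with empty
intersection. -/
theorem exists_borel_superset {ι : Type*} [Finite ι] (D : ι → Set X)
    (hD : ∀ i, AnalyticSet (D i)) (h : ∀ x, ∃ i, x ∉ D i) :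
    ∃ B : ι → Set X, (∀ i, MeasurableSet (B i)) ∧ (∀ i, D i ⊆ B i) ∧ ∀ x, ∃ i, x ∉ B i := by
  classical
  cases nonempty_fintype ι
  have h1 : (univ : Set X) ∩ ⋂ i ∈ (Finset.univ : Finset ι), D i = ∅ := by
    rw [Set.eq_empty_iff_forall_notMem]
    rintro x ⟨-, hx⟩
    obtain ⟨i, hi⟩ := h x
    simp only [mem_iInter] at hx
    exact hi (hx i (Finset.mem_univ i))
  obtain ⟨C, B, hC, hB, hAC, hDB, hemp⟩ := exists_borel_superset_aux D hD Finset.univ univ
    MeasurableSet.univ.analyticSet h1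
  refine ⟨B, hB, hDB, fun x => ?_⟩
  by_contra hcon
  push Not at hcon
  rw [Set.eq_empty_iff_forall_notMem] at hemp
  refine hemp x ⟨hAC (mem_univ x), ?_⟩
  simp only [mem_iInter]
  intro i _
  exact hcon i

end Separation

/-- A set of pairs which is single valued. -/
def SV {X Y : Type*} (G : Set (X × Y)) : Prop :=
  ∀ x y y', (x, y) ∈ G → (x, y') ∈ G → y = y'

/-- A single valued analytic set is contained in a single valued Borel set. -/
theorem exists_borel_graph {X Y : Type*} [TopologicalSpace X] [PolishSpace X] [MeasurableSpace X]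
    [BorelSpace X] [TopologicalSpace Y] [PolishSpace Y] [MeasurableSpace Y] [BorelSpace Y]
    {G : Set (X × Y)} (hG : AnalyticSet G) (hsv : SV G) :
    ∃ G' : Set (X × Y), MeasurableSet G' ∧ G ⊆ G' ∧ SV G' := by
  obtain ⟨V, hV, hsep⟩ := exists_seq_separating Y (p := MeasurableSet) MeasurableSet.empty univ
  have key : ∀ n, ∃ u : Set X, Prod.fst '' (G ∩ Prod.snd ⁻¹' (V n)) ⊆ u ∧
      Disjoint (Prod.fst '' (G ∩ Prod.snd ⁻¹' (V n)ᶜ)) u ∧ MeasurableSet u := by
    intro n
    have h1 : AnalyticSet (Prod.fst '' (G ∩ Prod.snd ⁻¹' (V n))) :=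
      (analytic_inter hG (measurable_snd (hV n)).analyticSet).image_of_continuous continuous_fst
    have h2 : AnalyticSet (Prod.fst '' (G ∩ Prod.snd ⁻¹' (V n)ᶜ)) :=
      (analytic_inter hG (measurable_snd (hV n).compl).analyticSet).image_of_continuous
        continuous_fst
    refine h1.measurablySeparable h2 ?_
    rw [Set.disjoint_left]
    rintro x ⟨⟨x1, y⟩, ⟨hp, hy⟩, rfl⟩ ⟨⟨x2, y'⟩, ⟨hp', hy'⟩, hxx⟩
    simp only at hxx
    subst hxx
    have := hsv _ _ _ hp hp'
    subst this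
    exact hy' hy
  choose u hu1 hu2 hu3 using key
  refine ⟨⋂ n, {p : X × Y | p.2 ∈ V n ↔ p.1 ∈ u n}, ?_, ?_, ?_⟩
  · refine MeasurableSet.iInter fun n => ?_
    have : {p : X × Y | p.2 ∈ V n ↔ p.1 ∈ u n} =
        (Prod.snd ⁻¹' (V n) ∩ Prod.fst ⁻¹' (u n)) ∪
        (Prod.snd ⁻¹' (V n)ᶜ ∩ Prod.fst ⁻¹' (u n)ᶜ) := by
      ext p
      simp only [mem_ofPred_eq, mem_union, mem_inter_iff, mem_preimage, mem_compl_iff]
      tauto
    rw [this]
    exact ((measurable_snd (hV n)).inter (measurable_fst (hu3 n))).union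
      ((measurable_snd (hV n).compl).inter (measurable_fst (hu3 n).compl))
  · rintro ⟨x, y⟩ hp
    simp only [mem_iInter, mem_ofPred_eq]
    intro n
    constructor
    · intro hy
      exact hu1 n ⟨(x, y), ⟨hp, hy⟩, rfl⟩
    · intro hx
      by_contra hy
      exact Set.disjoint_left.1 (hu2 n) ⟨(x, y), ⟨hp, hy⟩, rfl⟩ hx
  · intro x y y' hy hy'
    simp only [mem_iInter, mem_ofPred_eq] at hy hy'
    refine hsep y (mem_univ _) y' (mem_univ _) fun n => ?_
    rw [hy n, hy' n]

section Main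

/-- Finite initial segments of sequences. -/
abbrev Node := Σ n : ℕ, (Fin n → ℕ)

/-- The cylinder of a node. -/
def cyl (t : Node) : Set (ℕ → ℕ) := {b | ∀ i : Fin t.1, b i = t.2 i}

/-- The restriction of a sequence. -/
def res (b : ℕ → ℕ) (m : ℕ) : Node := ⟨m, fun i => b i⟩

theorem mem_cyl_res (b : ℕ → ℕ) (m : ℕ) : b ∈ cyl (res b m) := fun _ => rfl

theorem cyl_res_subset {b : ℕ → ℕ} {t : Node} (hb : b ∈ cyl t) {m : ℕ} (hm : t.1 ≤ m) :
    cyl (res b m) ⊆ cyl t := by
  intro c hc i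
  have h1 : c i = b i := hc ⟨i, lt_of_lt_of_le i.2 hm⟩
  rw [h1]
  exact hb i

theorem isClosed_cyl (t : Node) : IsClosed (cyl t) := by
  have : cyl t = ⋂ i : Fin t.1, {b : ℕ → ℕ | b i = t.2 i} := by
    ext b
    simp [cyl]
  rw [this]
  exact isClosed_iInter fun i => isClosed_eq (continuous_apply _) continuous_const

theorem exists_cyl_subset (b : ℕ → ℕ) {U : Set (ℕ → ℕ)} (hU : IsOpen U) (hb : b ∈ U) :
    ∃ m0, ∀ m, m0 ≤ m → cyl (res b m) ⊆ U := by
  rw [isOpen_pi_iff] at hU
  obtain ⟨I, u, hu, hI⟩ := hU b hb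
  refine ⟨I.sup id + 1, fun m hm c hc => hI ?_⟩
  intro i hi
  have hle : i ≤ I.sup id := Finset.le_sup (f := id) hi
  have hlt : i < m := by omega
  have h1 : c i = b i := hc ⟨i, hlt⟩
  rw [h1]
  exact (hu i hi).2

variable {X Y : Type*} [TopologicalSpace X] [PolishSpace X] [MeasurableSpace X]
    [BorelSpace X] [TopologicalSpace Y] [PolishSpace Y] [MeasurableSpace Y] [BorelSpace Y]

/-- Covered by countably many single valued Borel sets. -/
def Small (C : Set (X × Y)) : Prop :=
  ∃ 𝒢 : Set (Set (X × Y)), 𝒢.Countable ∧ (∀ G ∈ 𝒢, MeasurableSet G ∧ SV G) ∧ C ⊆ ⋃₀ 𝒢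

theorem Small.mono {C D : Set (X × Y)} (hD : Small D) (h : C ⊆ D) : Small C := by
  obtain ⟨𝒢, h1, h2, h3⟩ := hD
  exact ⟨𝒢, h1, h2, h.trans h3⟩

theorem Small.iUnion {ι : Type*} [Countable ι] {C : ι → Set (X × Y)} (h : ∀ i, Small (C i)) :
    Small (⋃ i, C i) := by
  choose 𝒢 h1 h2 h3 using h
  refine ⟨⋃ i, 𝒢 i, countable_iUnion h1, ?_, ?_⟩
  · intro G hG
    obtain ⟨i, hi⟩ := mem_iUnion.1 hG
    exact h2 i G hi
  · refine iUnion_subset fun i => (h3 i).trans ?_
    exact sUnion_subset_sUnion (subset_iUnion 𝒢 i)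

theorem Small.of_sv {G : Set (X × Y)} (h1 : MeasurableSet G) (h2 : SV G) : Small G :=
  ⟨{G}, countable_singleton G, by simpa using ⟨h1, h2⟩, by simp⟩

theorem Small.empty : Small (∅ : Set (X × Y)) :=
  ⟨∅, countable_empty, by simp, by simp⟩

theorem Small.union {C D : Set (X × Y)} (hC : Small C) (hD : Small D) : Small (C ∪ D) := by
  rw [Set.union_eq_iUnion]
  refine Small.iUnion fun b => ?_
  cases b
  · exact hD
  · exact hC

/-- A family of nodes is large if its members have a common point in the first projection even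
after removing any small Borel set. -/
def Large (φ : (ℕ → ℕ) → X × Y) {ι : Type} (T : ι → Node) : Prop :=
  ∀ C : Set (X × Y), MeasurableSet C → Small C →
    ∃ x, ∀ i, ∃ b ∈ cyl (T i), (φ b).1 = x ∧ φ b ∉ C

theorem Large.split {φ : (ℕ → ℕ) → X × Y} (hφ : Continuous φ) {ι : Type} [Finite ι]
    {T : ι → Node} (hT : Large φ T) :
    ∃ T' : ι × Bool → Node, (∀ p, cyl (T' p) ⊆ cyl (T p.1)) ∧ (∀ p, (T p.1).1 < (T' p).1) ∧
      (∀ i, ∀ b ∈ cyl (T' (i, false)), ∀ c ∈ cyl (T' (i, true)), (φ b).2 ≠ (φ c).2) ∧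
      Large φ T' := by
  classical
  by_contra hcon
  push Not at hcon
  have hno : ∀ T' : ι × Bool → Node, ∃ C : Set (X × Y), MeasurableSet C ∧ Small C ∧
      ((∀ p, cyl (T' p) ⊆ cyl (T p.1)) → (∀ p, (T p.1).1 < (T' p).1) →
      (∀ i, ∀ b ∈ cyl (T' (i, false)), ∀ c ∈ cyl (T' (i, true)), (φ b).2 ≠ (φ c).2) →
      ¬ ∃ x, ∀ i, ∃ b ∈ cyl (T' i), (φ b).1 = x ∧ φ b ∉ C) := by
    intro T'
    by_cases h1 : ∀ p, cyl (T' p) ⊆ cyl (T p.1)
    · by_cases h2 : ∀ p, (T p.1).1 < (T' p).1
      · by_cases h3 : ∀ i, ∀ b ∈ cyl (T' (i, false)), ∀ c ∈ cyl (T' (i, true)), (φ b).2 ≠ (φ c).2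
        · have h4 := hcon T' h1 h2 h3
          unfold Large at h4
          push Not at h4
          obtain ⟨C, hC1, hC2, hC3⟩ := h4
          refine ⟨C, hC1, hC2, fun _ _ _ => ?_⟩
          push Not
          exact hC3
        · exact ⟨∅, MeasurableSet.empty, Small.empty, fun _ _ h => absurd h h3⟩
      · exact ⟨∅, MeasurableSet.empty, Small.empty, fun _ h => absurd h h2⟩
    · exact ⟨∅, MeasurableSet.empty, Small.empty, fun h => absurd h h1⟩
  choose C hC1 hC2 hC3 using hno
  set Cs : Set (X × Y) := ⋃ T', C T' with hCs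
  have hCs1 : MeasurableSet Cs := MeasurableSet.iUnion hC1
  have hCs2 : Small Cs := Small.iUnion hC2
  -- the relevant analytic sets
  set R : ι → Set (X × Y) := fun i => (φ '' (cyl (T i))) \ Cs with hR
  have hRan : ∀ i, AnalyticSet (R i) := fun i =>
    analytic_diff ((isClosed_cyl (T i)).analyticSet.image_of_continuous hφ) hCs1
  set D : ι → Set X := fun i => {x | ∃ y y', y ≠ y' ∧ (x, y) ∈ R i ∧ (x, y') ∈ R i} with hD
  have hDan : ∀ i, AnalyticSet (D i) := by
    intro i
    have h1 : AnalyticSet {p : X × Y × Y | (p.1, p.2.1) ∈ R i} :=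
      (hRan i).preimage (f := fun p : X × Y × Y => (p.1, p.2.1)) (by fun_prop)
    have h2 : AnalyticSet {p : X × Y × Y | (p.1, p.2.2) ∈ R i} :=
      (hRan i).preimage (f := fun p : X × Y × Y => (p.1, p.2.2)) (by fun_prop)
    have h3 : MeasurableSet {p : X × Y × Y | p.2.1 ≠ p.2.2} :=
      (isClosed_eq (f := fun p : X × Y × Y => p.2.1) (g := fun p : X × Y × Y => p.2.2)
        (by fun_prop) (by fun_prop)).measurableSet.compl
    have h4 := (analytic_inter (analytic_inter h1 h2) h3.analyticSet).image_of_continuous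
      (f := fun p : X × Y × Y => p.1) (by fun_prop)
    convert h4 using 1
    ext x
    simp only [hD, mem_ofPred_eq, mem_image, mem_inter_iff, Prod.exists]
    constructor
    · rintro ⟨y, y', h, h', h''⟩
      exact ⟨x, y, y', ⟨⟨h', h''⟩, h⟩, rfl⟩
    · rintro ⟨x', y, y', ⟨⟨h', h''⟩, h⟩, rfl⟩
      exact ⟨y, y', h, h', h''⟩
  have hDemp : ∀ x, ∃ i, x ∉ D i := by
    intro x
    by_contra hx
    push Not at hx
    have hx' : ∀ i, ∃ b c : ℕ → ℕ, b ∈ cyl (T i) ∧ c ∈ cyl (T i) ∧ (φ b).1 = x ∧ (φ c).1 = x ∧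
        φ b ∉ Cs ∧ φ c ∉ Cs ∧ (φ b).2 ≠ (φ c).2 := by
      intro i
      obtain ⟨y, y', hne, ⟨⟨b, hb, hb'⟩, hbC⟩, ⟨⟨c, hc, hc'⟩, hcC⟩⟩ := hx i
      refine ⟨b, c, hb, hc, ?_, ?_, ?_, ?_, ?_⟩
      · rw [hb']
      · rw [hc']
      · rw [hb']; exact hbC
      · rw [hc']; exact hcC
      · rw [hb', hc']; exact hne
    choose b c hb hc hbx hcx hbC hcC hne using hx'
    have hm : ∀ i, ∃ m, (T i).1 < m ∧ ∀ b' ∈ cyl (res (b i) m), ∀ c' ∈ cyl (res (c i) m),
        (φ b').2 ≠ (φ c').2 := by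
      intro i
      obtain ⟨U, V, hU, hV, hbU, hcV, hUV⟩ := t2_separation (hne i)
      have hφ2 : Continuous fun b => (φ b).2 := continuous_snd.comp hφ
      obtain ⟨m1, hm1⟩ := exists_cyl_subset (b i) (hU.preimage hφ2) hbU
      obtain ⟨m2, hm2⟩ := exists_cyl_subset (c i) (hV.preimage hφ2) hcV
      refine ⟨max ((T i).1 + 1) (max m1 m2), by omega, ?_⟩
      intro b' hb' c' hc' heq
      have h1 : (φ b').2 ∈ U := hm1 _ (by omega) hb'
      have h2 : (φ c').2 ∈ V := hm2 _ (by omega) hc'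
      rw [heq] at h1
      exact Set.disjoint_left.1 hUV h1 h2
    choose m hm1 hm2 using hm
    set T' : ι × Bool → Node := fun p => if p.2 then res (c p.1) (m p.1) else res (b p.1) (m p.1)
      with hT'
    refine hC3 T' ?_ ?_ ?_ ⟨x, ?_⟩
    · rintro ⟨i, β⟩
      cases β
      · exact cyl_res_subset (hb i) (hm1 i).le
      · exact cyl_res_subset (hc i) (hm1 i).le
    · rintro ⟨i, β⟩
      cases β
      · exact hm1 i
      · exact hm1 i
    · intro i b' hb' c' hc'
      exact hm2 i b' hb' c' hc'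
    · rintro ⟨i, β⟩
      cases β
      · refine ⟨b i, mem_cyl_res _ _, hbx i, fun h => hbC i ?_⟩
        exact mem_iUnion.2 ⟨T', h⟩
      · refine ⟨c i, mem_cyl_res _ _, hcx i, fun h => hcC i ?_⟩
        exact mem_iUnion.2 ⟨T', h⟩
  obtain ⟨B, hB1, hB2, hB3⟩ := exists_borel_superset D hDan hDemp
  have hG : ∀ i, ∃ G' : Set (X × Y), MeasurableSet G' ∧ R i ∩ Prod.fst ⁻¹' (B i)ᶜ ⊆ G' ∧
      SV G' := by
    intro i
    refine exists_borel_graph
      (analytic_inter (hRan i) (measurable_fst (hB1 i).compl).analyticSet) ?_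
    rintro x y y' ⟨h1, h2⟩ ⟨h3, -⟩
    by_contra hne
    exact h2 (hB2 i ⟨y, y', hne, h1, h3⟩)
  choose G hG1 hG2 hG3 using hG
  obtain ⟨x, hx⟩ := hT (Cs ∪ ⋃ i, G i) (hCs1.union (MeasurableSet.iUnion hG1))
    (hCs2.union (Small.iUnion fun i => Small.of_sv (hG1 i) (hG3 i)))
  obtain ⟨i, hi⟩ := hB3 x
  obtain ⟨b, hb, hbx, hbC⟩ := hx i
  apply hbC
  right
  refine mem_iUnion.2 ⟨i, hG2 i ⟨⟨⟨b, hb, rfl⟩, fun h => hbC (Or.inl h)⟩, ?_⟩⟩
  simp only [mem_preimage, hbx]
  exact hi

/-- Index types for the levels of the construction. -/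
def Idx : ℕ → Type
  | 0 => Unit
  | (k + 1) => Idx k × Bool

instance finite_idx : ∀ k, Finite (Idx k)
  | 0 => inferInstanceAs (Finite Unit)
  | (k + 1) =>
    haveI := finite_idx k
    inferInstanceAs (Finite (Idx k × Bool))

/-- The index of a branch at a level. -/
def br (α : ℕ → Bool) : (k : ℕ) → Idx k
  | 0 => ()
  | (k + 1) => (br α k, α k)

theorem br_congr {α β : ℕ → Bool} {k : ℕ} (h : ∀ j, j < k → α j = β j) : br α k = br β k := by
  induction k with
  | zero => rfl
  | succ k ih =>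
    simp only [br]
    rw [ih (fun j hj => h j (by omega)), h k (by omega)]

/-- **Lusin–Novikov**, covering form. -/
theorem lusin_novikov_aux {φ : (ℕ → ℕ) → X × Y} (hφ : Continuous φ)
    (hP : ∀ x, {y | (x, y) ∈ range φ}.Countable) : Small (range φ) := by
  classical
  by_contra hns
  -- the initial family is large
  have h0 : Large φ (fun _ : Idx 0 => (⟨0, fun i => i.elim0⟩ : Node)) := by
    intro C hC1 hC2
    by_contra hcon
    push Not at hcon
    apply hns
    refine hC2.mono ?_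
    rintro _ ⟨b, rfl⟩
    obtain ⟨i, hi⟩ := hcon (φ b).1
    refine hi b ?_ rfl
    intro j
    exact j.elim0
  let step : (k : ℕ) → {T : Idx k → Node // Large φ T} → {T : Idx (k + 1) → Node // Large φ T} :=
    fun k T => ⟨Classical.choose (T.2.split hφ),
      (Classical.choose_spec (T.2.split hφ)).2.2.2⟩
  let S : (k : ℕ) → {T : Idx k → Node // Large φ T} :=
    fun k => Nat.rec ⟨_, h0⟩ step k
  have hS : ∀ k, S (k + 1) = step k (S k) := fun k => rfl
  have hS1 : ∀ k (p : Idx k × Bool), cyl ((S (k + 1)).1 p) ⊆ cyl ((S k).1 p.1) := fun k =>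
    (Classical.choose_spec ((S k).2.split hφ)).1
  have hS2 : ∀ k (p : Idx k × Bool), ((S k).1 p.1).1 < ((S (k + 1)).1 p).1 := fun k =>
    (Classical.choose_spec ((S k).2.split hφ)).2.1
  have hS3 : ∀ k (i : Idx k), ∀ b ∈ cyl ((S (k + 1)).1 ((i, false) : Idx k × Bool)),
      ∀ c ∈ cyl ((S (k + 1)).1 ((i, true) : Idx k × Bool)), (φ b).2 ≠ (φ c).2 := fun k =>
    (Classical.choose_spec ((S k).2.split hφ)).2.2.1
  -- branches
  set nd : (ℕ → Bool) → ℕ → Node := fun α k => (S k).1 (br α k) with hnd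
  have hsub : ∀ α k, cyl (nd α (k + 1)) ⊆ cyl (nd α k) := fun α k => hS1 k (br α k, α k)
  have hanti : ∀ α, Antitone fun k => cyl (nd α k) := fun α => antitone_nat_of_succ_le (hsub α)
  have hlen : ∀ α k, k ≤ (nd α k).1 := by
    intro α k
    induction k with
    | zero => exact Nat.zero_le _
    | succ k ih => exact lt_of_le_of_lt ih (hS2 k (br α k, α k))
  -- common projections
  have hx : ∀ k, ∃ x, ∀ i, ∃ b ∈ cyl ((S k).1 i), (φ b).1 = x := by
    intro k
    obtain ⟨x, hx⟩ := (S k).2 ∅ MeasurableSet.empty Small.empty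
    exact ⟨x, fun i => by
      obtain ⟨b, hb, hbx, -⟩ := hx i
      exact ⟨b, hb, hbx⟩⟩
  choose x hx using hx
  choose bb hbb hbbx using hx
  -- the limit of a branch
  set lim : (ℕ → Bool) → (ℕ → ℕ) := fun α n => bb (n + 1) (br α (n + 1)) n with hlim
  have hlim1 : ∀ α k (c : ℕ → ℕ), c ∈ cyl (nd α k) → ∀ n, n < k → c n = lim α n := by
    intro α k c hc n hn
    have h1 : c ∈ cyl (nd α (n + 1)) := hanti α (by omega : n + 1 ≤ k) hc
    have h2 : n < (nd α (n + 1)).1 := hlen α (n + 1)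
    have h3 := h1 ⟨n, h2⟩
    have h4 := hbb (n + 1) (br α (n + 1)) ⟨n, h2⟩
    simp only at h3 h4
    rw [h3]
    exact h4.symm
  have hlim2 : ∀ α k, lim α ∈ cyl (nd α k) := by
    intro α k i
    have hi := i.2
    have h1 : bb (max k (i + 1)) (br α (max k (i + 1))) ∈ cyl (nd α (max k (i + 1))) := hbb _ _
    have h2 := hanti α (le_max_left k (i + 1)) h1 i
    rw [← h2]
    exact (hlim1 α _ _ h1 i (by omega)).symm
  have htend : ∀ α, Tendsto (fun k => bb k (br α k)) atTop (𝓝 (lim α)) := by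
    intro α
    rw [tendsto_pi_nhds]
    intro n
    refine tendsto_const_nhds.congr' ?_
    filter_upwards [eventually_gt_atTop n] with k hk
    exact (hlim1 α k _ (hbb k (br α k)) n hk).symm
  have hxt : ∀ α, Tendsto x atTop (𝓝 (φ (lim α)).1) := by
    intro α
    have h1 : Tendsto (fun k => (φ (bb k (br α k))).1) atTop (𝓝 (φ (lim α)).1) :=
      ((continuous_fst.comp hφ).tendsto _).comp (htend α)
    refine h1.congr fun k => ?_
    exact hbbx k _
  have hxeq : ∀ α β, (φ (lim α)).1 = (φ (lim β)).1 := fun α β =>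
    tendsto_nhds_unique (hxt α) (hxt β)
  have hinj : Function.Injective fun α => (φ (lim α)).2 := by
    intro α β hαβ
    by_contra hne
    have hex : ∃ k, α k ≠ β k := by
      by_contra h
      push Not at h
      exact hne (funext h)
    have h1 := Nat.find_spec hex
    have h2 : ∀ j, j < Nat.find hex → α j = β j := fun j hj => by
      have := Nat.find_min hex hj
      push Not at this
      exact this
    set k := Nat.find hex with hk
    have h3 : br α k = br β k := br_congr h2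
    have h4 := hlim2 α (k + 1)
    have h5 := hlim2 β (k + 1)
    have h6 : nd α (k + 1) = (S (k + 1)).1 ((br α k, α k) : Idx k × Bool) := rfl
    have h7 : nd β (k + 1) = (S (k + 1)).1 ((br α k, β k) : Idx k × Bool) := by
      rw [h3]
      rfl
    rw [h6] at h4
    rw [h7] at h5
    cases hα : α k <;> cases hβ : β k
    · exact h1 (by rw [hα, hβ])
    · rw [hα] at h4
      rw [hβ] at h5
      exact hS3 k (br α k) _ h4 _ h5 hαβ
    · rw [hα] at h4
      rw [hβ] at h5
      exact hS3 k (br α k) _ h5 _ h4 hαβ.symm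
    · exact h1 (by rw [hα, hβ])
  have hcount := hP (φ (lim fun _ => false)).1
  have hsubset : range (fun α => (φ (lim α)).2) ⊆
      {y | ((φ (lim fun _ => false)).1, y) ∈ range φ} := by
    rintro _ ⟨α, rfl⟩
    refine ⟨lim α, ?_⟩
    rw [← hxeq α (fun _ => false)]
  have h1 : (range (fun α => (φ (lim α)).2)).Countable := hcount.mono hsubset
  have h2 : Countable (ℕ → Bool) := by
    rw [← Set.countable_univ_iff]
    have := h1.preimage_of_injOn (f := fun α => (φ (lim α)).2) hinj.injOn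
    rwa [preimage_range] at this
  obtain ⟨f, hf⟩ := (countable_iff_exists_surjective (α := ℕ → Bool)).1 h2
  obtain ⟨n, hn⟩ := hf fun n => !(f n n)
  have h3 := congrFun hn n
  simp at h3

end Main

/-- **Lusin–Novikov theorem** for standard Borel spaces: a Borel set with countable sections is a
countable union of single valued Borel sets. -/
theorem lusin_novikov {X Y : Type*} [MeasurableSpace X] [StandardBorelSpace X]
    [MeasurableSpace Y] [StandardBorelSpace Y] {P : Set (X × Y)} (hP : MeasurableSet P)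
    (hc : ∀ x, {y | (x, y) ∈ P}.Countable) :
    ∃ Q : ℕ → Set (X × Y), (∀ n, MeasurableSet (Q n)) ∧ (∀ n, SV (Q n)) ∧ ⋃ n, Q n = P := by
  letI := upgradeStandardBorel X
  letI := upgradeStandardBorel Y
  have hs : Small P := by
    have han := hP.analyticSet
    rw [AnalyticSet] at han
    rcases han with h | ⟨φ, hφ, hr⟩
    · rw [h]
      exact Small.empty
    · rw [← hr]
      refine lusin_novikov_aux hφ ?_
      rw [hr]
      exact hc
  obtain ⟨𝒢, h1, h2, h3⟩ := hs
  rcases 𝒢.eq_empty_or_nonempty with rfl | hne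
  · refine ⟨fun _ => ∅, fun _ => MeasurableSet.empty, fun _ x y y' h => absurd h (by simp), ?_⟩
    simp at h3
    simp [h3]
  · obtain ⟨G, hG⟩ := h1.exists_eq_range hne
    refine ⟨fun n => G n ∩ P, fun n => ?_, fun n => ?_, ?_⟩
    · exact (h2 (G n) (hG ▸ mem_range_self n)).1.inter hP
    · intro x y y' h h'
      exact (h2 (G n) (hG ▸ mem_range_self n)).2 x y y' h.1 h'.1
    · rw [← iUnion_inter]
      refine inter_eq_right.2 ?_
      rw [hG, sUnion_range] at h3
      exact h3

end Pool.Agent.H.MP_a6e06b_lc
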