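import Mathlib
import Pool.Agent.H.MP_a6e06b_lc.LusinNovikov

set_option autoImplicit false
set_option linter.all false

open MeasureTheory Set Filter Topology
open scoped ENNReal

namespace Pool.Agent.H.MP_a6e06b_lc

/-- The easy direction: a complete countable Borel section yields an assignment of measures. -/
theorem measure_of_section {X : Type*} [MeasurableSpace X] [StandardBorelSpace X]
    {E : X → X → Prop} (hE : Equivalence E) (hEm : MeasurableSet {p : X × X | E p.1 p.2})
    {B : Set X} (hB : MeasurableSet B)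
    (hB2 : ∀ x, (B ∩ {y | E x y}).Countable ∧ (B ∩ {y | E x y}).Nonempty) :
    ∃ μ : X → Measure X, Measurable μ ∧ (∀ x, IsProbabilityMeasure (μ x)) ∧
      (∀ x, μ x {y | E x y} = 1) ∧ ∀ x y, E x y → μ x ≪ μ y ∧ μ y ≪ μ x := by
  classical
  set P : Set (X × X) := {p | E p.1 p.2} ∩ Prod.snd ⁻¹' B with hP
  have hPm : MeasurableSet P := hEm.inter (measurable_snd hB)
  have hPc : ∀ x, {y | (x, y) ∈ P}.Countable := by
    intro x
    refine (hB2 x).1.mono ?_
    rintro y ⟨h1, h2⟩
    exact ⟨h2, h1⟩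
  obtain ⟨Q, hQ1, hQ2, hQ3⟩ := lusin_novikov hPm hPc
  have hQP : ∀ n, Q n ⊆ P := fun n => hQ3 ▸ subset_iUnion Q n
  have hsec : ∀ n x, MeasurableSet {y | (x, y) ∈ Q n} := fun n x =>
    measurable_prodMk_left (hQ1 n)
  -- the unnormalised measure
  set c : ℕ → ℝ≥0∞ := fun n => (1 / 2 : ℝ≥0∞) ^ (n + 1) with hc
  have hc0 : ∀ n, c n ≠ 0 := fun n => by
    simp [hc]
  set ν : X → Measure X := fun x =>
    Measure.sum fun n => c n • (Measure.count.restrict {y | (x, y) ∈ Q n}) with hν
  have hνV : ∀ x (V : Set X), MeasurableSet V →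
      ν x V = ∑' n, c n * Measure.count ({y | (x, y) ∈ Q n} ∩ V) := by
    intro x V hV
    simp only [hν]
    rw [Measure.sum_apply _ hV]
    refine tsum_congr fun n => ?_
    rw [Measure.smul_apply, Measure.restrict_apply hV, smul_eq_mul, inter_comm]
  have hcount : ∀ n x (V : Set X), MeasurableSet V →
      Measure.count ({y | (x, y) ∈ Q n} ∩ V) =
      (Prod.fst '' (Q n ∩ Prod.snd ⁻¹' V)).indicator (fun _ => (1 : ℝ≥0∞)) x := by
    intro n x V hV
    by_cases hx : x ∈ Prod.fst '' (Q n ∩ Prod.snd ⁻¹' V)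
    · rw [Set.indicator_of_mem hx]
      obtain ⟨⟨x', y⟩, ⟨h1, h2⟩, h3⟩ := hx
      simp only at h3
      subst h3
      have : {y | (x', y) ∈ Q n} ∩ V = {y} := by
        ext z
        simp only [mem_inter_iff, mem_ofPred_eq, mem_singleton_iff]
        constructor
        · rintro ⟨h4, -⟩
          exact hQ2 n x' z y h4 h1
        · rintro rfl
          exact ⟨h1, h2⟩
      rw [this, Measure.count_singleton]
    · rw [Set.indicator_of_notMem hx]
      have : {y | (x, y) ∈ Q n} ∩ V = ∅ := by
        rw [Set.eq_empty_iff_forall_notMem]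
        rintro z ⟨h1, h2⟩
        exact hx ⟨(x, z), ⟨h1, h2⟩, rfl⟩
      rw [this, measure_empty]
  have hproj : ∀ n (V : Set X), MeasurableSet V →
      MeasurableSet (Prod.fst '' (Q n ∩ Prod.snd ⁻¹' V)) := by
    intro n V hV
    refine ((hQ1 n).inter (measurable_snd hV)).image_of_measurable_injOn measurable_fst ?_
    rintro ⟨x, y⟩ ⟨h1, -⟩ ⟨x', y'⟩ ⟨h2, -⟩ h3
    simp only at h3
    subst h3
    rw [hQ2 n _ _ _ h1 h2]
  have hνm : ∀ V : Set X, MeasurableSet V → Measurable fun x => ν x V := by
    intro V hV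
    have : (fun x => ν x V) = fun x => ∑' n, c n *
        (Prod.fst '' (Q n ∩ Prod.snd ⁻¹' V)).indicator (fun _ => (1 : ℝ≥0∞)) x := by
      ext x
      rw [hνV x V hV]
      exact tsum_congr fun n => by rw [hcount n x V hV]
    rw [this]
    refine Measurable.ennreal_tsum fun n => ?_
    exact measurable_const.mul (measurable_const.indicator (hproj n V hV))
  have hν0 : ∀ x (V : Set X), MeasurableSet V →
      (ν x V = 0 ↔ ∀ y ∈ V, (x, y) ∉ P) := by
    intro x V hV
    rw [hνV x V hV, ENNReal.tsum_eq_zero]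
    constructor
    · intro h y hy hyP
      rw [← hQ3] at hyP
      obtain ⟨n, hn⟩ := mem_iUnion.1 hyP
      have h1 := h n
      rw [hcount n x V hV, mul_eq_zero] at h1
      rcases h1 with h1 | h1
      · exact hc0 n h1
      · rw [Set.indicator_of_mem (show x ∈ Prod.fst '' (Q n ∩ Prod.snd ⁻¹' V) from
          ⟨(x, y), ⟨hn, hy⟩, rfl⟩)] at h1
        exact one_ne_zero h1
    · intro h n
      have : {y | (x, y) ∈ Q n} ∩ V = ∅ := by
        rw [Set.eq_empty_iff_forall_notMem]
        rintro z ⟨h1, h2⟩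
        exact h z h2 (hQP n h1)
      rw [this, measure_empty, mul_zero]
  have hνne : ∀ x, ν x univ ≠ 0 := by
    intro x h
    rw [hν0 x univ MeasurableSet.univ] at h
    obtain ⟨y, hy1, hy2⟩ := (hB2 x).2
    exact h y (mem_univ y) ⟨hy2, hy1⟩
  have hνtop : ∀ x, ν x univ ≠ ∞ := by
    intro x
    have h1 : ν x univ ≤ ∑' n, c n := by
      rw [hνV x univ MeasurableSet.univ]
      refine ENNReal.tsum_le_tsum fun n => ?_
      rw [hcount n x univ MeasurableSet.univ]
      calc c n * _ ≤ c n * 1 := by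
            gcongr
            exact Set.indicator_le_self' (fun _ _ => zero_le_one) x
        _ = c n := mul_one _
    refine ne_top_of_le_ne_top ?_ h1
    have h2 : ∑' n, c n ≤ ∑' n : ℕ, (1 / 2 : ℝ≥0∞) ^ n := by
      refine ENNReal.tsum_le_tsum fun n => ?_
      rw [hc]
      simp only
      rw [pow_succ]
      calc (1 / 2 : ℝ≥0∞) ^ n * (1 / 2) ≤ (1 / 2 : ℝ≥0∞) ^ n * 1 := by
            gcongr
            rw [one_div]
            exact ENNReal.inv_le_one.2 one_le_two
        _ = _ := mul_one _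
    refine ne_top_of_le_ne_top ?_ h2
    rw [ENNReal.tsum_geometric]
    simp
  refine ⟨fun x => (ν x univ)⁻¹ • ν x, ?_, ?_, ?_, ?_⟩
  · refine Measure.measurable_of_measurable_coe _ fun V hV => ?_
    simp only [Measure.smul_apply, smul_eq_mul]
    exact (hνm univ MeasurableSet.univ).inv.mul (hνm V hV)
  · intro x
    refine ⟨?_⟩
    rw [Measure.smul_apply, smul_eq_mul]
    exact ENNReal.inv_mul_cancel (hνne x) (hνtop x)
  · intro x
    have hEx : MeasurableSet {y | E x y} := measurable_prodMk_left hEm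
    have h1 : ν x {y | E x y} = ν x univ := by
      rw [hνV x _ hEx, hνV x _ MeasurableSet.univ]
      refine tsum_congr fun n => ?_
      congr 2
      ext y
      simp only [mem_inter_iff, mem_ofPred_eq, mem_univ, and_true, and_iff_left_iff_imp]
      intro h
      exact (hQP n h).1
    rw [Measure.smul_apply, smul_eq_mul, h1]
    exact ENNReal.inv_mul_cancel (hνne x) (hνtop x)
  · have key : ∀ x y, E x y → (ν x univ)⁻¹ • ν x ≪ (ν y univ)⁻¹ • ν y := by
      intro x y hxy
      refine Measure.AbsolutelyContinuous.mk fun V hV h => ?_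
      rw [Measure.smul_apply, smul_eq_mul, mul_eq_zero] at h ⊢
      right
      rcases h with h | h
      · exact absurd h (ENNReal.inv_ne_zero.2 (hνtop y))
      · rw [hν0 y V hV] at h
        rw [hν0 x V hV]
        intro z hz hzP
        refine h z hz ⟨?_, hzP.2⟩
        exact hE.trans (hE.symm hxy) hzP.1
    exact fun x y hxy => ⟨key x y hxy, key y x (hE.symm hxy)⟩

end Pool.Agent.H.MP_a6e06b_lc
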