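import Mathlib
import Pool.Agent.H.MP_a6e06b_lc.Select
import Pool.Agent.H.MP_a6e06b_lc.Invariant
import Pool.Agent.H.MP_a6e06b_lc.Section
import Pool.Agent.H.MP_a6e06b_lc.SectionToMeasure

set_option autoImplicit false
set_option linter.all false

open MeasureTheory Set Filter Topology ProbabilityTheory
open scoped ENNReal

namespace Pool.Agent.H.MP_a6e06b_lc

/-- The hard direction: a Borel assignment of pairwise equivalent probability measures,
concentrated on the classes, yields a complete countable Borel section. -/
theorem section_of_measure {X : Type*} [MeasurableSpace X] [StandardBorelSpace X]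
    {E : X → X → Prop} (hE : Equivalence E) (hEm : MeasurableSet {p : X × X | E p.1 p.2})
    (μ : X → Measure X) (hμ : Measurable μ) (hμp : ∀ x, IsProbabilityMeasure (μ x))
    (hμ1 : ∀ x, μ x {y | E x y} = 1)
    (hac : ∀ x y, E x y → μ x ≪ μ y ∧ μ y ≪ μ x) :
    ∃ B : Set X, MeasurableSet B ∧
      ∀ x : X, (B ∩ {y | E x y}).Countable ∧ (B ∩ {y | E x y}).Nonempty := by
  classical
  let κ : Kernel X X := ⟨μ, hμ⟩
  have hκ : ∀ x, κ x = μ x := fun x => rfl
  haveI : IsMarkovKernel κ := ⟨fun x => hμp x⟩
  have hκE : ∀ x, ∀ᵐ y ∂κ x, E x y := by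
    intro x
    have hm : MeasurableSet {y | E x y} := measurable_prodMk_left hEm
    rw [hκ]
    rw [ae_iff]
    have := hμp x
    have h1 : μ x {y | E x y}ᶜ = 0 := by
      rw [prob_compl_eq_zero_iff hm]
      exact hμ1 x
    exact h1
  obtain ⟨Λ, hΛs, k, hkm, hk0, hk1, hkint, hΛE, hΛinv⟩ :=
    exists_invariant_kernel hE hEm κ hκE (fun x y h => (hac x y h).1)
  have hGtop : ∀ x z, min (min (k x z) (k z x)) 1 ≠ ∞ := fun x z =>
    ne_top_of_le_ne_top ENNReal.one_ne_top (min_le_right _ _)
  have hkm' : Measurable fun p : X × X => k p.2 p.1 :=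
    hkm.comp (measurable_snd.prodMk measurable_fst)
  let D : InvData E :=
    { hE := hE
      hEm := hEm
      Λ := Λ
      sf := hΛs
      g := fun x z => (min (min (k x z) (k z x)) 1).toReal
      hg := ((hkm.min hkm').min measurable_const).ennreal_toReal
      gpos := fun x z => ENNReal.toReal_pos
        (lt_min (lt_min (hk0 x z) (hk0 z x)) one_pos).ne' (hGtop x z)
      gle := fun x z => by
        have := ENNReal.toReal_mono ENNReal.one_ne_top
          (min_le_right (min (k x z) (k z x)) (1 : ℝ≥0∞))
        simpa using this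
      gsymm := fun x z => by
        rw [min_comm (k x z) (k z x)]
      gint := fun x => by
        have h1 : ∫⁻ z, ENNReal.ofReal ((min (min (k x z) (k z x)) 1).toReal) ∂Λ x ≤
            ∫⁻ z, k x z ∂Λ x := by
          refine lintegral_mono fun z => ?_
          rw [ENNReal.ofReal_toReal (hGtop x z)]
          exact (min_le_left _ _).trans (min_le_left _ _)
        exact h1.trans (hkint x).le
      hΛ0 := fun x h => by
        have := hkint x
        rw [h] at this
        simp at this
      hΛE := hΛE
      hΛinv := hΛinv }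
  exact D.exists_section

end Pool.Agent.H.MP_a6e06b_lc
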